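import Mathlib

/-!
# Sequences over elementary 3-groups without zero-sum triples
-/

set_option autoImplicit false

namespace Pool.Agent.H29.EGZ

open Finset

/-- no three distinct elements of `S` have sum zero -/
def IsCap {W : Type*} [AddCommGroup W] (S : Finset W) : Prop :=
  ∀ T ⊆ S, T.card = 3 → ∑ x ∈ T, x ≠ 0

section Count
variable {W κ : Type*} [AddCommGroup W] [DecidableEq W] [DecidableEq κ]

omit [DecidableEq κ] in
lemma fiber_le_two (h3 : ∀ w : W, 3 • w = 0) (K : Finset κ) (h : κ → W)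
    (hfree : ∀ T ⊆ K, T.card = 3 → ∑ i ∈ T, h i ≠ 0) (w : W) :
    (K.filter (fun i => h i = w)).card ≤ 2 := by
  by_contra hcon
  push Not at hcon
  obtain ⟨T, hT, hT3⟩ := Finset.exists_subset_card_eq (s := K.filter (fun i => h i = w)) (n := 3) hcon
  refine hfree T (hT.trans (Finset.filter_subset _ _)) hT3 ?_
  have : ∑ i ∈ T, h i = ∑ i ∈ T, w := Finset.sum_congr rfl fun i hi => by
    have := hT hi
    simp only [Finset.mem_filter] at this
    exact this.2
  rw [this, Finset.sum_const, hT3, h3]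

lemma isCap_image (K : Finset κ) (h : κ → W)
    (hfree : ∀ T ⊆ K, T.card = 3 → ∑ i ∈ T, h i ≠ 0) : IsCap (K.image h) := by
  intro T hT hT3
  obtain ⟨x, y, z, hxy, hxz, hyz, rfl⟩ := Finset.card_eq_three.mp hT3
  have hx : x ∈ K.image h := hT (by simp)
  have hy : y ∈ K.image h := hT (by simp)
  have hz : z ∈ K.image h := hT (by simp)
  rw [Finset.mem_image] at hx hy hz
  obtain ⟨i, hi, rfl⟩ := hx
  obtain ⟨j, hj, rfl⟩ := hy
  obtain ⟨k, hk, rfl⟩ := hz
  have hij : i ≠ j := fun e => hxy (by rw [e])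
  have hik : i ≠ k := fun e => hxz (by rw [e])
  have hjk : j ≠ k := fun e => hyz (by rw [e])
  have hs : ∑ x ∈ ({h i, h j, h k} : Finset W), x = ∑ l ∈ ({i, j, k} : Finset κ), h l := by
    rw [Finset.sum_insert (by simp [hxy, hxz]), Finset.sum_insert (by simp [hyz]),
      Finset.sum_singleton, Finset.sum_insert (by simp [hij, hik]),
      Finset.sum_insert (by simp [hjk]), Finset.sum_singleton]
  rw [hs]
  apply hfree
  · intro l hl
    simp only [Finset.mem_insert, Finset.mem_singleton] at hl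
    rcases hl with rfl | rfl | rfl <;> assumption
  · exact Finset.card_eq_three.mpr ⟨i, j, k, hij, hik, hjk, rfl⟩

lemma card_free_le {c : ℕ} (h3 : ∀ w : W, 3 • w = 0)
    (hc : ∀ S : Finset W, IsCap S → S.card ≤ c)
    (K : Finset κ) (h : κ → W)
    (hfree : ∀ T ⊆ K, T.card = 3 → ∑ i ∈ T, h i ≠ 0) : K.card ≤ 2 * c := by
  have h1 : K.card = ∑ w ∈ K.image h, (K.filter (fun i => h i = w)).card :=
    Finset.card_eq_sum_card_fiberwise (fun i hi => Finset.mem_coe.mpr (Finset.mem_image_of_mem h hi))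
  rw [h1]
  calc ∑ w ∈ K.image h, (K.filter (fun i => h i = w)).card
      ≤ ∑ w ∈ K.image h, 2 := Finset.sum_le_sum fun w _ => fiber_le_two h3 K h hfree w
    _ = (K.image h).card * 2 := by simp
    _ ≤ 2 * c := by
        have := hc _ (isCap_image K h hfree)
        omega

lemma card_free_eq {c : ℕ} (h3 : ∀ w : W, 3 • w = 0)
    (hc : ∀ S : Finset W, IsCap S → S.card ≤ c)
    (K : Finset κ) (h : κ → W)
    (hfree : ∀ T ⊆ K, T.card = 3 → ∑ i ∈ T, h i ≠ 0) (hK : K.card = 2 * c) :
    (K.image h).card = c ∧ ∀ w ∈ K.image h, (K.filter (fun i => h i = w)).card = 2 := by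
  have h1 : K.card = ∑ w ∈ K.image h, (K.filter (fun i => h i = w)).card :=
    Finset.card_eq_sum_card_fiberwise (fun i hi => Finset.mem_coe.mpr (Finset.mem_image_of_mem h hi))
  have hle : ∀ w ∈ K.image h, (K.filter (fun i => h i = w)).card ≤ 2 :=
    fun w _ => fiber_le_two h3 K h hfree w
  have h2 : ∑ w ∈ K.image h, (K.filter (fun i => h i = w)).card ≤ (K.image h).card * 2 := by
    refine (Finset.sum_le_sum hle).trans ?_
    simp
  have h4 := hc _ (isCap_image K h hfree)
  have h5 : (K.image h).card = c := by omega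
  refine ⟨h5, ?_⟩
  have h6 : ∑ w ∈ K.image h, (K.filter (fun i => h i = w)).card = ∑ w ∈ K.image h, 2 := by
    rw [← h1, hK, Finset.sum_const, h5, smul_eq_mul, mul_comm]
  exact (Finset.sum_eq_sum_iff_of_le hle).mp h6

/-- every fibre has 0 or 2 elements -/
lemma fiber_even {c : ℕ} (h3 : ∀ w : W, 3 • w = 0)
    (hc : ∀ S : Finset W, IsCap S → S.card ≤ c)
    (K : Finset κ) (h : κ → W)
    (hfree : ∀ T ⊆ K, T.card = 3 → ∑ i ∈ T, h i ≠ 0) (hK : K.card = 2 * c) (w : W) :
    (K.filter (fun i => h i = w)).card = 0 ∨ (K.filter (fun i => h i = w)).card = 2 := by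
  by_cases hw : w ∈ K.image h
  · exact Or.inr ((card_free_eq h3 hc K h hfree hK).2 w hw)
  · left
    rw [Finset.card_eq_zero, Finset.filter_eq_empty_iff]
    intro i hi e
    exact hw (Finset.mem_image.mpr ⟨i, hi, e⟩)

end Count

end Pool.Agent.H29.EGZ
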