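import Mathlib
import Pool.Agent.H29.EGZ.Count

/-!
# Structure of long sequences without zero-sum subsequences of length 9

Abstract setting: `V` (think `(ZMod 9)^r`), `W` (think `(ZMod 3)^r`), `φ : V →+ W` the reduction and
`e : V → W` division by 3 on the kernel of `φ`.
-/

set_option autoImplicit false
set_option linter.unusedSectionVars false

namespace Pool.Agent.H29.EGZ

open Finset

section Struct

variable {V W ι : Type*} [AddCommGroup V] [AddCommGroup W] [DecidableEq W]
  [Fintype ι] [DecidableEq ι]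

/-- a family of disjoint triples whose sums vanish modulo 3 -/
def Fam (φ : V →+ W) (f : ι → V) (F : Finset (Finset ι)) : Prop :=
  (∀ T ∈ F, T.card = 3 ∧ ∑ i ∈ T, φ (f i) = 0) ∧ (F : Set (Finset ι)).PairwiseDisjoint id

/-- indices not covered by the family -/
def Rem (F : Finset (Finset ι)) : Finset ι := univ \ F.biUnion id

lemma mem_rem {F : Finset (Finset ι)} {i : ι} : i ∈ Rem F ↔ ∀ T ∈ F, i ∉ T := by
  simp [Rem]

variable {φ : V →+ W} {f : ι → V} {F : Finset (Finset ι)}

lemma Fam.add (hF : Fam φ f F) {T : Finset ι} (hT : T ⊆ Rem F) (h3 : T.card = 3)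
    (h0 : ∑ i ∈ T, φ (f i) = 0) :
    Fam φ f (insert T F) ∧ (insert T F).card = F.card + 1 := by
  have hdis : ∀ T' ∈ F, Disjoint T T' := by
    intro T' hT'
    rw [Finset.disjoint_left]
    intro i hi hi'
    exact mem_rem.mp (hT hi) T' hT' hi'
  have hne : T ∉ F := by
    intro h
    have := hdis T h
    rw [disjoint_self, Finset.bot_eq_empty] at this
    rw [this] at h3
    simp at h3
  refine ⟨⟨?_, ?_⟩, by rw [Finset.card_insert_of_notMem hne]⟩
  · intro T' hT'
    rcases Finset.mem_insert.mp hT' with rfl | h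
    · exact ⟨h3, h0⟩
    · exact hF.1 T' h
  · rw [Finset.coe_insert]
    refine hF.2.insert ?_
    intro T' hT' _
    exact hdis T' hT'

lemma Fam.erase (hF : Fam φ f F) (T : Finset ι) : Fam φ f (F.erase T) := by
  refine ⟨fun T' hT' => hF.1 T' (Finset.mem_of_mem_erase hT'), ?_⟩
  exact hF.2.subset (by simp [Finset.coe_subset, Finset.erase_subset])

lemma rem_erase (hF : Fam φ f F) {T : Finset ι} (hT : T ∈ F) : Rem (F.erase T) = Rem F ∪ T := by
  ext i
  rw [mem_rem, Finset.mem_union, mem_rem]
  constructor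
  · intro h
    by_cases hi : i ∈ T
    · exact Or.inr hi
    · left
      intro T' hT'
      by_cases e : T' = T
      · rw [e]; exact hi
      · exact h T' (Finset.mem_erase.mpr ⟨e, hT'⟩)
  · rintro (h | h) T' hT'
    · exact h T' (Finset.mem_of_mem_erase hT')
    · intro hi
      have h1 := Finset.mem_erase.mp hT'
      have := hF.2 hT h1.2 (Ne.symm h1.1)
      exact (Finset.disjoint_left.mp this) h hi

lemma Fam.replace (hF : Fam φ f F) {T T1 : Finset ι} (hT : T ∈ F) (hT1 : T1 ⊆ Rem F ∪ T)
    (h3 : T1.card = 3) (h0 : ∑ i ∈ T1, φ (f i) = 0) :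
    Fam φ f (insert T1 (F.erase T)) ∧ (insert T1 (F.erase T)).card = F.card := by
  rw [← rem_erase hF hT] at hT1
  obtain ⟨h1, h2⟩ := (hF.erase T).add hT1 h3 h0
  refine ⟨h1, ?_⟩
  rw [h2, Finset.card_erase_of_mem hT]
  have : 0 < F.card := Finset.card_pos.mpr ⟨T, hT⟩
  omega

lemma rem_insert (F : Finset (Finset ι)) (T : Finset ι) : Rem (insert T F) = Rem F \ T := by
  ext i
  rw [Finset.mem_sdiff, mem_rem, mem_rem]
  constructor
  · intro h
    exact ⟨fun T' hT' => h T' (Finset.mem_insert_of_mem hT'), h T (Finset.mem_insert_self _ _)⟩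
  · rintro ⟨h, h'⟩ T' hT'
    rcases Finset.mem_insert.mp hT' with rfl | h''
    · exact h'
    · exact h T' h''

lemma card_cover (hF : Fam φ f F) : (F.biUnion id).card = 3 * F.card := by
  rw [Finset.card_biUnion (fun x hx y hy hxy => hF.2 hx hy hxy)]
  have : ∑ T ∈ F, (id T : Finset ι).card = ∑ T ∈ F, 3 :=
    Finset.sum_congr rfl (fun T hT => (hF.1 T hT).1)
  rw [this]
  simp [mul_comm]

lemma card_rem (hF : Fam φ f F) : (Rem F).card + 3 * F.card = Fintype.card ι := by
  rw [← card_cover hF, Rem, Finset.card_sdiff_of_subset (Finset.subset_univ _),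
    Finset.card_univ]
  have : (F.biUnion id).card ≤ Fintype.card ι := Finset.card_le_univ _
  omega

/-- data: division by three on the kernel of the reduction -/
structure Div3 (φ : V →+ W) (e : V → W) : Prop where
  three : ∀ w : W, 3 • w = 0
  add : ∀ v v' : V, φ v = 0 → φ v' = 0 → e (v + v') = e v + e v'
  inj : ∀ v : V, φ v = 0 → e v = 0 → v = 0
  smul : ∀ v : V, e (3 • v) = φ v

variable {e : V → W}

lemma Div3.zero (he : Div3 φ e) : e 0 = 0 := by
  have := he.smul 0
  simpa using this

lemma Div3.sum (he : Div3 φ e) {κ : Type*} [DecidableEq κ] (K : Finset κ) (g : κ → V)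
    (hg : ∀ k ∈ K, φ (g k) = 0) : e (∑ k ∈ K, g k) = ∑ k ∈ K, e (g k) := by
  induction K using Finset.induction_on with
  | empty => simpa using he.zero
  | insert a s ha ih =>
    rw [Finset.sum_insert ha, Finset.sum_insert ha, he.add, ih]
    · intro k hk; exact hg k (Finset.mem_insert_of_mem hk)
    · exact hg a (Finset.mem_insert_self _ _)
    · rw [map_sum]
      exact Finset.sum_eq_zero fun k hk => hg k (Finset.mem_insert_of_mem hk)

/-- the value of a triple -/
def val (f : ι → V) (e : V → W) (T : Finset ι) : W := e (∑ i ∈ T, f i)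

lemma fam_free (he : Div3 φ e) (h9 : ∀ I : Finset ι, I.card = 9 → ∑ i ∈ I, f i ≠ 0)
    (hF : Fam φ f F) : ∀ 𝒯 ⊆ F, 𝒯.card = 3 → ∑ T ∈ 𝒯, val f e T ≠ 0 := by
  intro 𝒯 h𝒯 h3 h0
  have hF' : Fam φ f 𝒯 :=
    ⟨fun T hT => hF.1 T (h𝒯 hT), hF.2.subset (by exact_mod_cast h𝒯)⟩
  refine h9 (𝒯.biUnion id) (by rw [card_cover hF', h3]) ?_
  rw [Finset.sum_biUnion (fun x hx y hy hxy => hF'.2 hx hy hxy)]
  have hk : ∀ T ∈ 𝒯, φ (∑ i ∈ T, f i) = 0 := by
    intro T hT
    rw [map_sum]
    exact (hF'.1 T hT).2
  apply he.inj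
  · rw [map_sum]
    exact Finset.sum_eq_zero hk
  · simp only [id]
    rw [he.sum 𝒯 _ hk]
    exact h0

section Max

variable {c : ℕ} (he : Div3 φ e) (h9 : ∀ I : Finset ι, I.card = 9 → ∑ i ∈ I, f i ≠ 0)
  (hc : ∀ S : Finset W, IsCap S → S.card ≤ c) (hcard : Fintype.card ι = 8 * c)

include he h9 hc in
lemma fam_card_le (hF : Fam φ f F) : F.card ≤ 2 * c :=
  card_free_le he.three hc F (val f e) (fam_free he h9 hF)

include he h9 hc hcard in
lemma exists_full : ∃ F : Finset (Finset ι), Fam φ f F ∧ F.card = 2 * c := by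
  classical
  obtain ⟨F, hF, hmax⟩ := Finset.exists_max_image
    ((univ : Finset (Finset (Finset ι))).filter (fun F => Fam φ f F)) (fun F => F.card)
    ⟨∅, by simp [Fam]⟩
  simp only [Finset.mem_filter, Finset.mem_univ, true_and] at hF hmax
  refine ⟨F, hF, le_antisymm (fam_card_le he h9 hc hF) ?_⟩
  have hfree : ∀ T ⊆ Rem F, T.card = 3 → ∑ i ∈ T, φ (f i) ≠ 0 := by
    intro T hT h3 h0
    obtain ⟨h1, h2⟩ := hF.add hT h3 h0
    have := hmax _ h1
    omega
  have h1 := card_free_le he.three hc (Rem F) (fun i => φ (f i)) hfree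
  have h2 := card_rem hF
  omega

include he h9 hc in
lemma full_free (hF : Fam φ f F) (h2 : F.card = 2 * c) :
    ∀ T ⊆ Rem F, T.card = 3 → ∑ i ∈ T, φ (f i) ≠ 0 := by
  intro T hT h3 h0
  obtain ⟨h1, h4⟩ := hF.add hT h3 h0
  have := fam_card_le he h9 hc h1
  omega

include he h9 hc hcard in
lemma full_fiber (hF : Fam φ f F) (h2 : F.card = 2 * c) (w : W) :
    ((Rem F).filter (fun i => φ (f i) = w)).card = 0 ∨
      ((Rem F).filter (fun i => φ (f i) = w)).card = 2 := by
  refine fiber_even he.three hc (Rem F) (fun i => φ (f i)) (full_free he h9 hc hF h2) ?_ w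
  have := card_rem hF
  omega

include he h9 hc hcard in
lemma full_image (hF : Fam φ f F) (h2 : F.card = 2 * c) :
    ((Rem F).image (fun i => φ (f i))).card = c := by
  refine (card_free_eq he.three hc (Rem F) (fun i => φ (f i)) (full_free he h9 hc hF h2) ?_).1
  have := card_rem hF
  omega

include he h9 hc in
lemma val_fiber (hF : Fam φ f F) (h2 : F.card = 2 * c) (w : W) :
    (F.filter (fun T => val f e T = w)).card = 0 ∨
      (F.filter (fun T => val f e T = w)).card = 2 :=
  fiber_even he.three hc F (val f e) (fam_free he h9 hF) h2 w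

/-- swapping an element of a triple with an uncovered element of the same class -/
lemma swap_eq (he : Div3 φ e) (h9 : ∀ I : Finset ι, I.card = 9 → ∑ i ∈ I, f i ≠ 0)
    (hc : ∀ S : Finset W, IsCap S → S.card ≤ c) (hF : Fam φ f F) (h2 : F.card = 2 * c)
    {T : Finset ι} (hT : T ∈ F) {i j : ι} (hi : i ∈ T) (hj : j ∈ Rem F)
    (hij : φ (f i) = φ (f j)) : f i = f j := by
  have hjT : j ∉ T := mem_rem.mp hj T hT
  have hjE : j ∉ T.erase i := fun h => hjT (Finset.mem_of_mem_erase h)
  have hT3 := (hF.1 T hT).1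
  have hT0 := (hF.1 T hT).2
  set T1 : Finset ι := insert j (T.erase i) with hT1
  have hsub : T1 ⊆ Rem F ∪ T := by
    intro k hk
    rcases Finset.mem_insert.mp hk with rfl | h
    · exact Finset.mem_union_left _ hj
    · exact Finset.mem_union_right _ (Finset.mem_of_mem_erase h)
  have h31 : T1.card = 3 := by
    rw [hT1, Finset.card_insert_of_notMem hjE, Finset.card_erase_of_mem hi, hT3]
  have h01 : ∑ k ∈ T1, φ (f k) = 0 := by
    rw [hT1, Finset.sum_insert hjE, ← hij, Finset.add_sum_erase T (fun k => φ (f k)) hi, hT0]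
  obtain ⟨hF1, hF1c⟩ := hF.replace hT hsub h31 h01
  have hsumf : ∑ k ∈ T1, f k + f i = ∑ k ∈ T, f k + f j := by
    rw [hT1, Finset.sum_insert hjE, ← Finset.add_sum_erase T f hi]
    abel
  -- the values agree
  have hval : val f e T1 = val f e T := by
    by_contra hne
    have hE1 : T1 ∉ F.erase T := by
      intro h
      have h1 := Finset.mem_of_mem_erase h
      exact mem_rem.mp hj T1 h1 (Finset.mem_insert_self _ _)
    have ha := val_fiber he h9 hc hF h2 (val f e T)
    have hb := val_fiber he h9 hc hF1 (hF1c.trans h2) (val f e T)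
    have hca : (F.filter (fun T' => val f e T' = val f e T)).card =
        ((F.erase T).filter (fun T' => val f e T' = val f e T)).card + 1 := by
      conv_lhs => rw [← Finset.insert_erase hT]
      rw [Finset.filter_insert, if_pos rfl, Finset.card_insert_of_notMem]
      intro h
      exact Finset.notMem_erase T F (Finset.mem_of_mem_filter _ h)
    have hcb : ((insert T1 (F.erase T)).filter (fun T' => val f e T' = val f e T)).card =
        ((F.erase T).filter (fun T' => val f e T' = val f e T)).card := by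
      rw [Finset.filter_insert, if_neg hne]
    omega
  have hk : φ (∑ k ∈ T, f k) = 0 := by rw [map_sum]; exact hT0
  have hk1 : φ (∑ k ∈ T1, f k) = 0 := by rw [map_sum]; exact h01
  have hd : φ (f j - f i) = 0 := by rw [map_sub, hij, sub_self]
  have h5 : ∑ k ∈ T1, f k = ∑ k ∈ T, f k + (f j - f i) := by
    rw [← add_sub_assoc, ← hsumf, add_sub_cancel_right]
  have h6 : e (f j - f i) = 0 := by
    have h7 : val f e T1 = val f e T + e (f j - f i) := by
      unfold val
      rw [h5, he.add _ _ hk hd]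
    rw [hval] at h7
    simpa using h7
  have := he.inj _ hd h6
  exact (sub_eq_zero.mp this).symm

end Max

end Struct

end Pool.Agent.H29.EGZ
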