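import Mathlib
import Pool.Agent.H29.EGZ.Structure

/-!
# All classes occur in the cap of the remainder
-/

set_option autoImplicit false
set_option linter.unusedSectionVars false

namespace Pool.Agent.H29.EGZ

open Finset

section Struct

variable {V W ι : Type*} [AddCommGroup V] [AddCommGroup W] [DecidableEq W]
  [Fintype ι] [DecidableEq ι]

variable {φ : V →+ W} {f : ι → V} {F : Finset (Finset ι)} {e : V → W} {c : ℕ}

/-- two uncovered indices of a class occurring in the remainder -/
lemma pair_of_mem (he : Div3 φ e) (h9 : ∀ I : Finset ι, I.card = 9 → ∑ i ∈ I, f i ≠ 0)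
    (hc : ∀ S : Finset W, IsCap S → S.card ≤ c) (hcard : Fintype.card ι = 8 * c)
    (hF : Fam φ f F) (h2 : F.card = 2 * c) {w : W}
    (hw : w ∈ (Rem F).image (fun i => φ (f i))) :
    ∃ i j : ι, i ≠ j ∧ (Rem F).filter (fun i => φ (f i) = w) = {i, j} := by
  apply Finset.card_eq_two.mp
  rcases full_fiber he h9 hc hcard hF h2 w with h | h
  · exfalso
    rw [Finset.card_eq_zero, Finset.filter_eq_empty_iff] at h
    obtain ⟨i, hi, hi'⟩ := Finset.mem_image.mp hw
    exact h hi hi'
  · exact h

lemma class_mem (he : Div3 φ e) (h9 : ∀ I : Finset ι, I.card = 9 → ∑ i ∈ I, f i ≠ 0)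
    (hc : ∀ S : Finset W, IsCap S → S.card ≤ c) (hcard : Fintype.card ι = 8 * c)
    (hF : Fam φ f F) (h2 : F.card = 2 * c) (i : ι) :
    φ (f i) ∈ (Rem F).image (fun i => φ (f i)) := by
  by_contra hu
  set D := (Rem F).image (fun i => φ (f i)) with hD
  have hiR : i ∉ Rem F := fun h => hu (Finset.mem_image_of_mem _ h)
  obtain ⟨T, hT, hiT⟩ : ∃ T ∈ F, i ∈ T := by
    by_contra hcon
    push Not at hcon
    exact hiR (mem_rem.mpr hcon)
  have hDcap : IsCap D := isCap_image (Rem F) (fun i => φ (f i)) (full_free he h9 hc hF h2)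
  have hDc : D.card = c := full_image he h9 hc hcard hF h2
  -- the class of `i` is the third point of a secant
  have hnot : ¬ IsCap (insert (φ (f i)) D) := by
    intro hcap
    have := hc _ hcap
    rw [Finset.card_insert_of_notMem hu, hDc] at this
    omega
  obtain ⟨v, w, hv, hw, hvw, huvw⟩ : ∃ v w, v ∈ D ∧ w ∈ D ∧ v ≠ w ∧ φ (f i) + v + w = 0 := by
    unfold IsCap at hnot
    push Not at hnot
    obtain ⟨S, hS, hS3, hS0⟩ := hnot
    have huS : φ (f i) ∈ S := by
      by_contra h
      refine hDcap S ?_ hS3 hS0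
      intro x hx
      rcases Finset.mem_insert.mp (hS hx) with rfl | h'
      · exact absurd hx h
      · exact h'
    have hcard2 : (S.erase (φ (f i))).card = 2 := by
      rw [Finset.card_erase_of_mem huS, hS3]
    obtain ⟨v, w, hvw, hE⟩ := Finset.card_eq_two.mp hcard2
    have hmem : ∀ x ∈ S.erase (φ (f i)), x ∈ D := by
      intro x hx
      have h1 := Finset.mem_erase.mp hx
      rcases Finset.mem_insert.mp (hS h1.2) with h' | h'
      · exact absurd h' h1.1
      · exact h'
    refine ⟨v, w, hmem v (by rw [hE]; simp), hmem w (by rw [hE]; simp), hvw, ?_⟩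
    rw [← Finset.add_sum_erase S (fun x => x) huS, hE, Finset.sum_pair hvw] at hS0
    rw [add_assoc]
    exact hS0
  obtain ⟨iv, jv, hijv, hfv⟩ := pair_of_mem he h9 hc hcard hF h2 hv
  obtain ⟨iw, jw, hijw, hfw⟩ := pair_of_mem he h9 hc hcard hF h2 hw
  have hiv : iv ∈ Rem F ∧ φ (f iv) = v := by
    have : iv ∈ (Rem F).filter (fun i => φ (f i) = v) := by rw [hfv]; simp
    simpa using this
  have hjv : jv ∈ Rem F ∧ φ (f jv) = v := by
    have : jv ∈ (Rem F).filter (fun i => φ (f i) = v) := by rw [hfv]; simp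
    simpa using this
  have hiw : iw ∈ Rem F ∧ φ (f iw) = w := by
    have : iw ∈ (Rem F).filter (fun i => φ (f i) = w) := by rw [hfw]; simp
    simpa using this
  have hjw : jw ∈ Rem F ∧ φ (f jw) = w := by
    have : jw ∈ (Rem F).filter (fun i => φ (f i) = w) := by rw [hfw]; simp
    simpa using this
  have huv : φ (f i) ≠ v := fun h => hu (h ▸ hv)
  have huw : φ (f i) ≠ w := fun h => hu (h ▸ hw)
  have hnotT : ∀ x ∈ Rem F, x ∉ T := fun x hx => mem_rem.mp hx T hT
  -- first exchange
  have hne1 : i ≠ iv := fun h => hiR (h ▸ hiv.1)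
  have hne2 : i ≠ iw := fun h => hiR (h ▸ hiw.1)
  have hne3 : iv ≠ iw := fun h => hvw (by rw [← hiv.2, ← hiw.2, h])
  set T1 : Finset ι := {i, iv, iw} with hT1
  have hT1c : T1.card = 3 := Finset.card_eq_three.mpr ⟨i, iv, iw, hne1, hne2, hne3, rfl⟩
  have hT1s : T1 ⊆ Rem F ∪ T := by
    intro x hx
    simp only [hT1, Finset.mem_insert, Finset.mem_singleton] at hx
    rcases hx with rfl | rfl | rfl
    · exact Finset.mem_union_right _ hiT
    · exact Finset.mem_union_left _ hiv.1
    · exact Finset.mem_union_left _ hiw.1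
  have hT10 : ∑ k ∈ T1, φ (f k) = 0 := by
    rw [hT1, Finset.sum_insert (by simp [hne1, hne2]), Finset.sum_pair hne3, hiv.2, hiw.2,
      ← add_assoc]
    exact huvw
  obtain ⟨hF1, hF1c⟩ := hF.replace hT hT1s hT1c hT10
  have hR1 : Rem (insert T1 (F.erase T)) = (Rem F ∪ T) \ T1 := by
    rw [rem_insert, rem_erase hF hT]
  -- a class with two uncovered elements, one of which is used, forces a member of `T`
  have key : ∀ (x y : ι) (z : W), x ≠ y → (Rem F).filter (fun i => φ (f i) = z) = {x, y} →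
      x ∈ T1 → y ∉ T1 → ∃ a ∈ T, φ (f a) = z := by
    intro x y z hxy hf hx hy
    have hy' : y ∈ Rem F ∧ φ (f y) = z := by
      have : y ∈ (Rem F).filter (fun i => φ (f i) = z) := by rw [hf]; simp
      simpa using this
    have hcase := full_fiber he h9 hc hcard hF1 (hF1c.trans h2) z
    rw [hR1] at hcase
    have hymem : y ∈ ((Rem F ∪ T) \ T1).filter (fun i => φ (f i) = z) := by
      simp only [Finset.mem_filter, Finset.mem_sdiff, Finset.mem_union]
      exact ⟨⟨Or.inl hy'.1, hy⟩, hy'.2⟩
    have h2' : (((Rem F ∪ T) \ T1).filter (fun i => φ (f i) = z)).card = 2 := by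
      rcases hcase with h | h
      · exfalso
        rw [Finset.card_eq_zero] at h
        rw [h] at hymem
        simp at hymem
      · exact h
    obtain ⟨a, ha, hay⟩ : ∃ a ∈ ((Rem F ∪ T) \ T1).filter (fun i => φ (f i) = z), a ≠ y := by
      by_contra hcon
      push Not at hcon
      have : ((Rem F ∪ T) \ T1).filter (fun i => φ (f i) = z) ⊆ {y} := by
        intro a ha
        simpa using hcon a ha
      have := Finset.card_le_card this
      simp at this
      omega
    simp only [Finset.mem_filter, Finset.mem_sdiff, Finset.mem_union] at ha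
    obtain ⟨⟨ha1 | ha1, ha2⟩, ha3⟩ := ha
    · exfalso
      have : a ∈ (Rem F).filter (fun i => φ (f i) = z) := by simp [ha1, ha3]
      rw [hf] at this
      simp only [Finset.mem_insert, Finset.mem_singleton] at this
      rcases this with rfl | rfl
      · exact ha2 hx
      · exact hay rfl
    · exact ⟨a, ha1, ha3⟩
  have hjvT1 : jv ∉ T1 := by
    simp only [hT1, Finset.mem_insert, Finset.mem_singleton, not_or]
    refine ⟨fun h => hiR (h ▸ hjv.1), fun h => hijv h.symm, fun h => hvw ?_⟩
    rw [← hjv.2, ← hiw.2, h]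
  have hjwT1 : jw ∉ T1 := by
    simp only [hT1, Finset.mem_insert, Finset.mem_singleton, not_or]
    refine ⟨fun h => hiR (h ▸ hjw.1), fun h => hvw ?_, fun h => hijw h.symm⟩
    rw [← hjw.2, ← hiv.2, h]
  obtain ⟨a, haT, ha⟩ := key iv jv v hijv hfv (by simp [hT1]) hjvT1
  obtain ⟨b, hbT, hb⟩ := key iw jw w hijw hfw (by simp [hT1]) hjwT1
  have hab : a ≠ b := fun h => hvw (by rw [← ha, ← hb, h])
  -- second exchange
  have haiv : a ≠ iv := fun h => hnotT iv hiv.1 (h ▸ haT)
  have hajv : a ≠ jv := fun h => hnotT jv hjv.1 (h ▸ haT)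
  set T2 : Finset ι := {a, iv, jv} with hT2
  have hT2c : T2.card = 3 := Finset.card_eq_three.mpr ⟨a, iv, jv, haiv, hajv, hijv, rfl⟩
  have hT2s : T2 ⊆ Rem F ∪ T := by
    intro x hx
    simp only [hT2, Finset.mem_insert, Finset.mem_singleton] at hx
    rcases hx with rfl | rfl | rfl
    · exact Finset.mem_union_right _ haT
    · exact Finset.mem_union_left _ hiv.1
    · exact Finset.mem_union_left _ hjv.1
  have h3v : v + (v + v) = 0 := by
    have := he.three v
    rw [← this]
    abel
  have h3w : w + (w + w) = 0 := by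
    have := he.three w
    rw [← this]
    abel
  have hT20 : ∑ k ∈ T2, φ (f k) = 0 := by
    rw [hT2, Finset.sum_insert (by simp [haiv, hajv]), Finset.sum_pair hijv, ha, hiv.2, hjv.2, h3v]
  obtain ⟨hF2, hF2c⟩ := hF.replace hT hT2s hT2c hT20
  have hbiw : b ≠ iw := fun h => hnotT iw hiw.1 (h ▸ hbT)
  have hbjw : b ≠ jw := fun h => hnotT jw hjw.1 (h ▸ hbT)
  refine full_free he h9 hc hF2 (hF2c.trans h2) {b, iw, jw} ?_
    (Finset.card_eq_three.mpr ⟨b, iw, jw, hbiw, hbjw, hijw, rfl⟩) ?_
  · rw [rem_insert, rem_erase hF hT]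
    have hx : ∀ x, φ (f x) = w → x ∉ T2 := by
      intro x hx hx2
      simp only [hT2, Finset.mem_insert, Finset.mem_singleton] at hx2
      rcases hx2 with rfl | rfl | rfl
      · exact hvw (by rw [← ha, hx])
      · exact hvw (by rw [← hiv.2, hx])
      · exact hvw (by rw [← hjv.2, hx])
    intro x hx'
    simp only [Finset.mem_insert, Finset.mem_singleton] at hx'
    rw [Finset.mem_sdiff, Finset.mem_union]
    rcases hx' with rfl | rfl | rfl
    · exact ⟨Or.inr hbT, hx _ hb⟩
    · exact ⟨Or.inl hiw.1, hx _ hiw.2⟩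
    · exact ⟨Or.inl hjw.1, hx _ hjw.2⟩
  · rw [Finset.sum_insert (by simp [hbiw, hbjw]), Finset.sum_pair hijw, hb, hiw.2, hjw.2, h3w]

end Struct

end Pool.Agent.H29.EGZ
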