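import Mathlib
import Pool.Agent.H29.EGZ.Classes

/-!
# The structure theorem (abstract form)
-/

set_option autoImplicit false
set_option linter.unusedSectionVars false

namespace Pool.Agent.H29.EGZ

open Finset

section Struct

variable {V W ι : Type*} [AddCommGroup V] [AddCommGroup W] [DecidableEq W]
  [Fintype ι] [DecidableEq ι]

variable {φ : V →+ W} {f : ι → V} {F : Finset (Finset ι)} {e : V → W} {c : ℕ}

lemma triple_class (he : Div3 φ e) (h9 : ∀ I : Finset ι, I.card = 9 → ∑ i ∈ I, f i ≠ 0)
    (hc : ∀ S : Finset W, IsCap S → S.card ≤ c) (hcard : Fintype.card ι = 8 * c)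
    (hF : Fam φ f F) (h2 : F.card = 2 * c) {T : Finset ι} (hT : T ∈ F) {i j : ι}
    (hi : i ∈ T) (hj : j ∈ T) : φ (f i) = φ (f j) := by
  have hD := fun i => class_mem he h9 hc hcard hF h2 i
  have hcap : IsCap ((Rem F).image (fun i => φ (f i))) :=
    isCap_image (Rem F) (fun i => φ (f i)) (full_free he h9 hc hF h2)
  obtain ⟨hT3, hT0⟩ := hF.1 T hT
  obtain ⟨x, y, z, hxy, hxz, hyz, rfl⟩ := Finset.card_eq_three.mp hT3
  rw [Finset.sum_insert (by simp [hxy, hxz]), Finset.sum_pair hyz] at hT0
  set p := φ (f x) with hp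
  set q := φ (f y) with hq
  set r := φ (f z) with hr
  have h3p : p + (p + p) = 0 := by rw [← he.three p]; abel
  have h3q : q + (q + q) = 0 := by rw [← he.three q]; abel
  have h3r : r + (r + r) = 0 := by rw [← he.three r]; abel
  have hall : p = q ∧ q = r := by
    by_cases h1 : p = q
    · refine ⟨h1, ?_⟩
      have h4 : p + (p + p) = p + (q + r) := by rw [h3p, hT0]
      have h5 := add_left_cancel h4
      rw [← h1] at h5
      rw [← h1]
      exact add_left_cancel h5
    · by_cases h2' : p = r
      · exfalso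
        have h4 : p + (p + p) = p + (q + p) := by rw [h3p, ← hT0, ← h2']
        exact h1 (add_right_cancel (add_left_cancel h4))
      · by_cases h3' : q = r
        · exfalso
          have h4 : q + (q + q) = p + (q + q) := by
            rw [h3q, ← hT0, ← h3']
          exact h1 (add_right_cancel h4).symm
        · exfalso
          refine hcap {p, q, r} ?_ (Finset.card_eq_three.mpr ⟨p, q, r, h1, h2', h3', rfl⟩) ?_
          · intro w hw
            simp only [Finset.mem_insert, Finset.mem_singleton] at hw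
            rcases hw with rfl | rfl | rfl
            · exact hD x
            · exact hD y
            · exact hD z
          · rw [Finset.sum_insert (by simp [h1, h2']), Finset.sum_pair h3']
            exact hT0
  obtain ⟨h1, h4⟩ := hall
  have hval : ∀ k ∈ ({x, y, z} : Finset ι), φ (f k) = p := by
    intro k hk
    simp only [Finset.mem_insert, Finset.mem_singleton] at hk
    rcases hk with rfl | rfl | rfl
    · rfl
    · exact h1.symm
    · exact (h1.trans h4).symm
  rw [hval i hi, hval j hj]

/-- **Structure theorem** (abstract form). -/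
theorem structure_abs (he : Div3 φ e) (h9 : ∀ I : Finset ι, I.card = 9 → ∑ i ∈ I, f i ≠ 0)
    (hc : ∀ S : Finset W, IsCap S → S.card ≤ c) (hcard : Fintype.card ι = 8 * c) :
    ∃ D : Finset W, D.card = c ∧ IsCap D ∧ ∃ x : W → V, (∀ u ∈ D, φ (x u) = u) ∧
      ∀ b : W → ℕ, (∀ u ∈ D, b u ≤ 8) → ∑ u ∈ D, b u = 9 → ∑ u ∈ D, b u • x u ≠ 0 := by
  classical
  obtain ⟨F, hF, h2⟩ := exists_full he h9 hc hcard
  set D := (Rem F).image (fun i => φ (f i)) with hD
  have hDc : D.card = c := full_image he h9 hc hcard hF h2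
  have hDcap : IsCap D := isCap_image (Rem F) (fun i => φ (f i)) (full_free he h9 hc hF h2)
  have hDmem : ∀ i, φ (f i) ∈ D := fun i => class_mem he h9 hc hcard hF h2 i
  -- two uncovered indices in each class
  have hpair : ∀ u ∈ D, ∃ i j : ι, i ≠ j ∧ i ∈ Rem F ∧ j ∈ Rem F ∧ φ (f i) = u ∧ φ (f j) = u := by
    intro u hu
    obtain ⟨i, j, hij, hf⟩ := pair_of_mem he h9 hc hcard hF h2 hu
    have h1 : i ∈ (Rem F).filter (fun i => φ (f i) = u) := by rw [hf]; simp
    have h3 : j ∈ (Rem F).filter (fun i => φ (f i) = u) := by rw [hf]; simp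
    rw [Finset.mem_filter] at h1 h3
    exact ⟨i, j, hij, h1.1, h3.1, h1.2, h3.2⟩
  -- the value of a triple is its class
  have hvalT : ∀ T ∈ F, ∀ i ∈ T, val f e T = φ (f i) := by
    intro T hT i hi
    obtain ⟨a, _, _, haR, _, ha, _⟩ := hpair _ (hDmem i)
    have hall : ∀ k ∈ T, f k = f a := by
      intro k hk
      refine swap_eq he h9 hc hF h2 hT hk haR ?_
      rw [triple_class he h9 hc hcard hF h2 hT hk hi, ha]
    unfold val
    rw [Finset.sum_congr rfl hall, Finset.sum_const, (hF.1 T hT).1, he.smul, ha]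
  have hvalD : ∀ T ∈ F, val f e T ∈ D := by
    intro T hT
    have : T.Nonempty := by
      rw [← Finset.card_pos, (hF.1 T hT).1]
      norm_num
    obtain ⟨i, hi⟩ := this
    rw [hvalT T hT i hi]
    exact hDmem i
  -- exactly two triples in every class
  have htwo : ∀ u ∈ D, (F.filter (fun T => val f e T = u)).card = 2 := by
    have h1 : F.card = ∑ u ∈ D, (F.filter (fun T => val f e T = u)).card :=
      Finset.card_eq_sum_card_fiberwise (fun T hT => Finset.mem_coe.mpr (hvalD T hT))
    have hle : ∀ u ∈ D, (F.filter (fun T => val f e T = u)).card ≤ 2 := by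
      intro u _
      rcases val_fiber he h9 hc hF h2 u with h | h <;> omega
    have h6 : ∑ u ∈ D, (F.filter (fun T => val f e T = u)).card = ∑ u ∈ D, 2 := by
      rw [← h1, h2, Finset.sum_const, hDc, smul_eq_mul, mul_comm]
    exact (Finset.sum_eq_sum_iff_of_le hle).mp h6
  -- eight equal terms in every class
  have height : ∀ u ∈ D, ∃ (S : Finset ι) (x : V), S.card = 8 ∧ (∀ i ∈ S, f i = x) ∧ φ x = u := by
    intro u hu
    obtain ⟨i, j, hij, hiR, hjR, hi, hj⟩ := hpair u hu
    obtain ⟨T, T', hTT', hTf⟩ := Finset.card_eq_two.mp (htwo u hu)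
    have hT : T ∈ F ∧ val f e T = u := by
      have : T ∈ F.filter (fun T => val f e T = u) := by rw [hTf]; simp
      exact Finset.mem_filter.mp this
    have hT' : T' ∈ F ∧ val f e T' = u := by
      have : T' ∈ F.filter (fun T => val f e T = u) := by rw [hTf]; simp
      exact Finset.mem_filter.mp this
    have hdis : Disjoint T T' := hF.2 hT.1 hT'.1 hTT'
    have hTc := (hF.1 T hT.1).1
    have hT'c := (hF.1 T' hT'.1).1
    have hdis2 : Disjoint (T ∪ T') {i, j} := by
      rw [Finset.disjoint_left]
      intro k hk hk'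
      simp only [Finset.mem_insert, Finset.mem_singleton] at hk'
      have hkR : k ∈ Rem F := by rcases hk' with rfl | rfl <;> assumption
      rcases Finset.mem_union.mp hk with h | h
      · exact mem_rem.mp hkR T hT.1 h
      · exact mem_rem.mp hkR T' hT'.1 h
    have hin : ∀ k, k ∈ T ∨ k ∈ T' → ∀ l ∈ Rem F, φ (f l) = u → f k = f l := by
      intro k hk l hl hlu
      rcases hk with h | h
      · exact swap_eq he h9 hc hF h2 hT.1 h hl (by rw [← hvalT T hT.1 k h, hT.2, hlu])
      · exact swap_eq he h9 hc hF h2 hT'.1 h hl (by rw [← hvalT T' hT'.1 k h, hT'.2, hlu])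
    have hji : f j = f i := by
      obtain ⟨k, hk⟩ : T.Nonempty := by rw [← Finset.card_pos, hTc]; norm_num
      rw [← hin k (Or.inl hk) j hjR hj, hin k (Or.inl hk) i hiR hi]
    refine ⟨(T ∪ T') ∪ {i, j}, f i, ?_, ?_, hi⟩
    · rw [Finset.card_union_of_disjoint hdis2, Finset.card_union_of_disjoint hdis, hTc, hT'c,
        Finset.card_pair hij]
    · intro k hk
      rcases Finset.mem_union.mp hk with h | h
      · exact hin k (Finset.mem_union.mp h) i hiR hi
      · simp only [Finset.mem_insert, Finset.mem_singleton] at h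
        rcases h with rfl | rfl
        · rfl
        · exact hji
  choose! S x hS8 hSx hφx using height
  refine ⟨D, hDc, hDcap, x, hφx, ?_⟩
  intro b hb8 hb9 hsum
  have hsub : ∀ u ∈ D, ∃ I ⊆ S u, I.card = b u := by
    intro u hu
    apply Finset.exists_subset_card_eq
    rw [hS8 u hu]
    exact hb8 u hu
  choose! I hIs hIc using hsub
  have hIdis : (D : Set W).PairwiseDisjoint I := by
    intro u hu v hv huv
    show Disjoint (I u) (I v)
    rw [Finset.disjoint_left]
    intro k hk hk'
    apply huv
    have h1 := hSx u hu k (hIs u hu hk)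
    have h3 := hSx v hv k (hIs v hv hk')
    rw [← hφx u hu, ← hφx v hv, ← h1, ← h3]
  refine h9 (D.biUnion I) ?_ ?_
  · rw [Finset.card_biUnion (fun u hu v hv huv => hIdis hu hv huv), ← hb9]
    exact Finset.sum_congr rfl hIc
  · rw [Finset.sum_biUnion hIdis, ← hsum]
    refine Finset.sum_congr rfl fun u hu => ?_
    rw [Finset.sum_congr rfl (fun k hk => hSx u hu k (hIs u hu hk)), Finset.sum_const, hIc u hu]

end Struct

end Pool.Agent.H29.EGZ
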