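import Mathlib
import Pool.Agent.H29.EGZ.Final

/-!
# The structure theorem for `(ZMod 9)^r`
-/

set_option autoImplicit false

namespace Pool.Agent.H29.EGZ

open Finset

/-- reduction `(ZMod 9)^r → (ZMod 3)^r` -/
def red (r : ℕ) : (Fin r → ZMod 9) →+ (Fin r → ZMod 3) where
  toFun v i := ZMod.castHom (by norm_num : 3 ∣ 9) (ZMod 3) (v i)
  map_zero' := by ext i; simp
  map_add' v w := by ext i; simp

/-- division by three of the elements of `3 (ZMod 9)^r` -/
def third (r : ℕ) (v : Fin r → ZMod 9) : Fin r → ZMod 3 := fun i => (((v i).val / 3 : ℕ) : ZMod 3)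

lemma red_apply (r : ℕ) (v : Fin r → ZMod 9) (i : Fin r) :
    red r v i = ZMod.castHom (by norm_num : 3 ∣ 9) (ZMod 3) (v i) := rfl

lemma aux_add : ∀ a b : ZMod 9, ZMod.castHom (by norm_num : 3 ∣ 9) (ZMod 3) a = 0 →
    ZMod.castHom (by norm_num : 3 ∣ 9) (ZMod 3) b = 0 →
    (((a + b).val / 3 : ℕ) : ZMod 3) = ((a.val / 3 : ℕ) : ZMod 3) + ((b.val / 3 : ℕ) : ZMod 3) := by
  decide

lemma aux_inj : ∀ a : ZMod 9, ZMod.castHom (by norm_num : 3 ∣ 9) (ZMod 3) a = 0 →
    ((a.val / 3 : ℕ) : ZMod 3) = 0 → a = 0 := by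
  decide

lemma aux_smul : ∀ a : ZMod 9, (((3 • a : ZMod 9).val / 3 : ℕ) : ZMod 3) =
    ZMod.castHom (by norm_num : 3 ∣ 9) (ZMod 3) a := by
  decide

lemma aux_three : ∀ a : ZMod 3, 3 • a = 0 := by
  decide

lemma div3 (r : ℕ) : Div3 (red r) (third r) where
  three w := by
    funext i
    exact aux_three (w i)
  add v v' h h' := by
    funext i
    exact aux_add (v i) (v' i) (congrFun h i) (congrFun h' i)
  inj v h h' := by
    funext i
    exact aux_inj (v i) (congrFun h i) (congrFun h' i)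
  smul v := by
    funext i
    exact aux_smul (v i)

/-! ### An explicit cap with 45 points -/

/-- the point of `(ZMod 3)^5` with ternary code `n` -/
def dec (n : ℕ) : Fin 5 → ZMod 3 := fun i => ((n / 3 ^ (i : ℕ) % 3 : ℕ) : ZMod 3)

/-- codes of a 45-cap -/
def capCodes : List ℕ := [5, 7, 8, 10, 12, 13, 23, 26, 39, 43, 50, 52, 53, 59, 62, 83, 104, 109, 110, 111, 119, 121, 124, 125, 134, 140, 145, 153, 154, 161, 162, 164, 169, 172, 174, 177, 178, 181, 193, 198, 207, 208, 212, 223, 238]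

/-- the digit sums of `a`, `b`, `c` vanish modulo 3 -/
def zs (a b c : ℕ) : Bool :=
  (a % 3 + b % 3 + c % 3) % 3 == 0 &&
  (a / 3 % 3 + b / 3 % 3 + c / 3 % 3) % 3 == 0 &&
  (a / 9 % 3 + b / 9 % 3 + c / 9 % 3) % 3 == 0 &&
  (a / 27 % 3 + b / 27 % 3 + c / 27 % 3) % 3 == 0 &&
  (a / 81 % 3 + b / 81 % 3 + c / 81 % 3) % 3 == 0

lemma zs_of_sum {a b c : ℕ} (h : dec a + dec b + dec c = 0) : zs a b c = true := by
  have key : ∀ i : Fin 5, (a / 3 ^ (i : ℕ) % 3 + b / 3 ^ (i : ℕ) % 3 + c / 3 ^ (i : ℕ) % 3) % 3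
      = 0 := by
    intro i
    have h1 := congrFun h i
    simp only [dec, Pi.add_apply, Pi.zero_apply] at h1
    have h2 : ((a / 3 ^ (i : ℕ) % 3 + b / 3 ^ (i : ℕ) % 3 + c / 3 ^ (i : ℕ) % 3 : ℕ) : ZMod 3)
        = 0 := by
      push_cast
      exact_mod_cast h1
    rw [ZMod.natCast_eq_zero_iff] at h2
    exact Nat.mod_eq_zero_of_dvd h2
  have h0 := key 0
  have h1 := key 1
  have h2 := key 2
  have h3 := key 3
  have h4 := key 4
  simp only [Fin.val_zero, Fin.val_one, Fin.val_two, pow_zero, pow_one, Nat.div_one,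
    show ((3 : Fin 5) : ℕ) = 3 from rfl, show ((4 : Fin 5) : ℕ) = 4 from rfl] at h0 h1 h2 h3 h4
  norm_num at h0 h1 h2 h3 h4
  simp [zs, h0, h1, h2, h3, h4]

lemma cap_check : capCodes.all (fun a => capCodes.all (fun b => capCodes.all (fun c =>
    (a == b) || !(zs a b c)))) = true := by
  decide +kernel

/-- the 45-cap -/
def cap45 : Finset (Fin 5 → ZMod 3) := (capCodes.map dec).toFinset

lemma cap45_isCap : IsCap cap45 := by
  intro T hT hT3 h0
  obtain ⟨x, y, z, hxy, hxz, hyz, rfl⟩ := Finset.card_eq_three.mp hT3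
  have hx : x ∈ cap45 := hT (by simp)
  have hy : y ∈ cap45 := hT (by simp)
  have hz : z ∈ cap45 := hT (by simp)
  simp only [cap45, List.mem_toFinset, List.mem_map] at hx hy hz
  obtain ⟨a, ha, rfl⟩ := hx
  obtain ⟨b, hb, rfl⟩ := hy
  obtain ⟨c, hc, rfl⟩ := hz
  rw [Finset.sum_insert (by simp [hxy, hxz]), Finset.sum_pair hyz, ← add_assoc] at h0
  have h1 := zs_of_sum h0
  have h2 := List.all_eq_true.mp (List.all_eq_true.mp (List.all_eq_true.mp cap_check a ha) b hb) c hc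
  rw [h1] at h2
  simp only [Bool.not_true, Bool.or_false, beq_iff_eq] at h2
  exact hxy (by rw [h2])

lemma cap45_card : cap45.card = 45 := by
  decide +kernel

/-! ### The structure theorem -/

/-- if `8 c` terms can avoid zero-sums of length 9, `c` the maximum size of a cap, then some maximum
cap has a good lift -/
theorem structure_concrete {r c : ℕ}
    (hc : ∀ S : Finset (Fin r → ZMod 3), IsCap S → S.card ≤ c)
    (f : Fin (8 * c) → (Fin r → ZMod 9))
    (h9 : ∀ I : Finset (Fin (8 * c)), I.card = 9 → ∑ i ∈ I, f i ≠ 0) :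
    ∃ D : Finset (Fin r → ZMod 3), D.card = c ∧ IsCap D ∧
      ∃ x : (Fin r → ZMod 3) → (Fin r → ZMod 9), (∀ u ∈ D, red r (x u) = u) ∧
      ∀ b : (Fin r → ZMod 3) → ℕ, (∀ u ∈ D, b u ≤ 8) → ∑ u ∈ D, b u = 9 →
        ∑ u ∈ D, b u • x u ≠ 0 :=
  structure_abs (div3 r) h9 hc (by simp)

/-- the consequence of the conjectured formula at `n = 9`, `r = 5` -/
theorem structure_nine
    (h : sInf {l : ℕ | ∀ f : Fin l → (Fin 5 → ZMod 9), ∃ I : Finset (Fin l),
          I.card = AddMonoid.exponent (Fin 5 → ZMod 9) ∧ ∑ i ∈ I, f i = 0}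
        = (sInf {l : ℕ | ∀ S : Finset (Fin 5 → ZMod 3), l ≤ S.card →
              ∃ T ⊆ S, T.card = AddMonoid.exponent (Fin 5 → ZMod 3) ∧ ∑ x ∈ T, x = 0} - 1)
            * (9 - 1) + 1) :
    ∃ D : Finset (Fin 5 → ZMod 3), 45 ≤ D.card ∧ IsCap D ∧
      (∀ S : Finset (Fin 5 → ZMod 3), IsCap S → S.card ≤ D.card) ∧
      ∃ x : (Fin 5 → ZMod 3) → (Fin 5 → ZMod 9), (∀ u ∈ D, red 5 (x u) = u) ∧
      ∀ b : (Fin 5 → ZMod 3) → ℕ, (∀ u ∈ D, b u ≤ 8) → ∑ u ∈ D, b u = 9 →
        ∑ u ∈ D, b u • x u ≠ 0 := by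
  have hexp3 : AddMonoid.exponent (Fin 5 → ZMod 3) = 3 := by
    apply Nat.dvd_antisymm
    · apply AddMonoid.exponent_dvd_of_forall_nsmul_eq_zero
      intro w
      exact (div3 5).three w
    · have h1 := AddMonoid.exponent_nsmul_eq_zero (fun _ : Fin 5 => (1 : ZMod 3))
      have h2 := congrFun h1 0
      simp only [Pi.smul_apply, nsmul_eq_mul, mul_one, Pi.zero_apply] at h2
      exact (ZMod.natCast_eq_zero_iff _ _).mp h2
  have hexp9 : AddMonoid.exponent (Fin 5 → ZMod 9) = 9 := by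
    apply Nat.dvd_antisymm
    · apply AddMonoid.exponent_dvd_of_forall_nsmul_eq_zero
      intro w
      funext i
      have : ∀ a : ZMod 9, 9 • a = 0 := by decide
      exact this (w i)
    · have h1 := AddMonoid.exponent_nsmul_eq_zero (fun _ : Fin 5 => (1 : ZMod 9))
      have h2 := congrFun h1 0
      simp only [Pi.smul_apply, nsmul_eq_mul, mul_one, Pi.zero_apply] at h2
      exact (ZMod.natCast_eq_zero_iff _ _).mp h2
  rw [hexp3, hexp9] at h
  set G : Set ℕ := {l : ℕ | ∀ S : Finset (Fin 5 → ZMod 3), l ≤ S.card →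
              ∃ T ⊆ S, T.card = 3 ∧ ∑ x ∈ T, x = 0} with hG
  set c := sInf G - 1 with hc
  have hne : G.Nonempty := by
    refine ⟨Fintype.card (Fin 5 → ZMod 3) + 1, ?_⟩
    intro S hS
    exfalso
    have := Finset.card_le_univ S
    omega
  have hmem := Nat.sInf_mem hne
  have hcap : ∀ S : Finset (Fin 5 → ZMod 3), IsCap S → S.card ≤ c := by
    intro S hS
    by_contra hlt
    push Not at hlt
    have h1 : sInf G ≤ S.card := by omega
    obtain ⟨T, hT, hT3, hT0⟩ := hmem S h1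
    exact hS T hT hT3 hT0
  have hnot : 8 * c ∉ {l : ℕ | ∀ f : Fin l → (Fin 5 → ZMod 9), ∃ I : Finset (Fin l),
          I.card = 9 ∧ ∑ i ∈ I, f i = 0} := by
    apply Nat.notMem_of_lt_sInf
    rw [h]
    omega
  simp only [Set.mem_setOf_eq] at hnot
  push Not at hnot
  obtain ⟨f, hf⟩ := hnot
  obtain ⟨D, hD, hDcap, x, hx, hb⟩ := structure_concrete hcap f hf
  refine ⟨D, ?_, hDcap, ?_, x, hx, hb⟩
  · rw [hD, ← cap45_card]
    exact hcap _ cap45_isCap
  · rw [hD]
    exact hcap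

/-- the six-term constraints: sums of six terms (multiplicities at most 2) vanishing modulo 3 -/
theorem six_term {r : ℕ} {D : Finset (Fin r → ZMod 3)}
    {x : (Fin r → ZMod 3) → (Fin r → ZMod 9)} (hx : ∀ u ∈ D, red r (x u) = u)
    (hgood : ∀ b : (Fin r → ZMod 3) → ℕ, (∀ u ∈ D, b u ≤ 8) → ∑ u ∈ D, b u = 9 →
        ∑ u ∈ D, b u • x u ≠ 0)
    (b : (Fin r → ZMod 3) → ℕ) (hb : ∀ u ∈ D, b u ≤ 5) (hb6 : ∑ u ∈ D, b u = 6)
    (hb0 : ∑ u ∈ D, b u • u = 0) : -(third r (∑ u ∈ D, b u • x u)) ∉ D := by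
  classical
  intro hu
  set u := -(third r (∑ u ∈ D, b u • x u)) with hudef
  have hs0 : red r (∑ v ∈ D, b v • x v) = 0 := by
    rw [map_sum, ← hb0]
    refine Finset.sum_congr rfl fun v hv => ?_
    rw [map_nsmul, hx v hv]
  refine hgood (fun v => b v + if v = u then 3 else 0) ?_ ?_ ?_
  · intro v hv
    have := hb v hv
    show b v + (if v = u then 3 else 0) ≤ 8
    split_ifs <;> omega
  · rw [Finset.sum_add_distrib, hb6, Finset.sum_ite_eq' D u, if_pos hu]
  · have h1 : ∑ v ∈ D, (b v + if v = u then 3 else 0) • x v =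
        ∑ v ∈ D, b v • x v + 3 • x u := by
      have h2 : ∀ v ∈ D, (b v + if v = u then 3 else 0) • x v =
          b v • x v + if v = u then 3 • x v else 0 := by
        intro v _
        rw [add_smul]
        split_ifs <;> simp
      rw [Finset.sum_congr rfl h2, Finset.sum_add_distrib, Finset.sum_ite_eq' D u, if_pos hu]
    rw [h1]
    have h3 : red r (3 • x u) = 0 := by
      rw [map_nsmul, hx u hu]
      exact (div3 r).three u
    apply (div3 r).inj
    · rw [map_add, hs0, h3, add_zero]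
    · rw [(div3 r).add _ _ hs0 h3, (div3 r).smul, hx u hu, hudef, add_neg_cancel]

end Pool.Agent.H29.EGZ
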