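import Mathlib
import Pool.Agent.H29.EGZ.Count

/-!
# Hyperplane sections of 45-caps in `(ZMod 3)^5`: moment identities
-/

set_option autoImplicit false

namespace Pool.Agent.H29.EGZ

open Finset

/-- the affine space -/
abbrev W5 := Fin 5 → ZMod 3

/-- size of the section of `D` by the hyperplane `ξ · u = j` -/
def sec (D : Finset W5) (ξ : W5) (j : ZMod 3) : ℕ := (D.filter (fun u => dotProduct ξ u = j)).card

lemma card_W5 : Fintype.card W5 = 243 := by
  simp [W5, ZMod.card]

/-- number of functionals vanishing at a nonzero vector -/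
lemma card_ker (v : W5) (hv : v ≠ 0) :
    (univ.filter (fun ξ : W5 => dotProduct ξ v = 0)).card = 81 := by
  obtain ⟨i, hi⟩ : ∃ i, v i ≠ 0 := by
    by_contra h
    push Not at h
    exact hv (funext h)
  set w : W5 := Pi.single i (v i)⁻¹ with hw
  have hwv : dotProduct w v = 1 := by
    rw [hw, single_dotProduct, inv_mul_cancel₀ hi]
  have hfib : ∀ t : ZMod 3, (univ.filter (fun ξ : W5 => dotProduct ξ v = t)).card =
      (univ.filter (fun ξ : W5 => dotProduct ξ v = 0)).card := by
    intro t
    refine Finset.card_bij (fun ξ _ => ξ - t • w) ?_ ?_ ?_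
    · intro ξ hξ
      simp only [Finset.mem_filter, Finset.mem_univ, true_and] at hξ ⊢
      rw [sub_dotProduct, smul_dotProduct, hwv, hξ, smul_eq_mul, mul_one, sub_self]
    · intro ξ _ ξ' _ h
      exact sub_left_injective h
    · intro ξ hξ
      simp only [Finset.mem_filter, Finset.mem_univ, true_and] at hξ
      refine ⟨ξ + t • w, ?_, by simp⟩
      simp only [Finset.mem_filter, Finset.mem_univ, true_and]
      rw [add_dotProduct, smul_dotProduct, hwv, hξ, smul_eq_mul, mul_one, zero_add]
  have htot := Finset.card_eq_sum_card_fiberwise (s := (univ : Finset W5))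
    (t := (univ : Finset (ZMod 3))) (f := fun ξ => dotProduct ξ v) (fun _ _ => by simp)
  rw [Finset.sum_congr rfl (fun t _ => hfib t), Finset.sum_const, Finset.card_univ, card_W5,
    Finset.card_univ, ZMod.card, smul_eq_mul] at htot
  omega

lemma card_agree (u x : W5) :
    (univ.filter (fun ξ : W5 => dotProduct ξ u = dotProduct ξ x)).card =
      81 + if u = x then 162 else 0 := by
  by_cases h : u = x
  · subst h
    simp [card_W5]
  · rw [if_neg h, add_zero, ← card_ker (u - x) (sub_ne_zero.mpr h)]
    congr 1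
    ext ξ
    simp only [Finset.mem_filter, Finset.mem_univ, true_and]
    rw [dotProduct_sub, sub_eq_zero]

/-- first identity: sections through a point -/
lemma sum_sec (D : Finset W5) (x : W5) :
    ∑ ξ : W5, sec D ξ (dotProduct ξ x) = 81 * D.card + if x ∈ D then 162 else 0 := by
  have h1 : ∀ ξ : W5, sec D ξ (dotProduct ξ x) =
      ∑ u ∈ D, if dotProduct ξ u = dotProduct ξ x then 1 else 0 := by
    intro ξ
    unfold sec
    rw [Finset.card_filter]
  rw [Finset.sum_congr rfl (fun ξ _ => h1 ξ), Finset.sum_comm]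
  have h2 : ∀ u ∈ D, ∑ ξ : W5, (if dotProduct ξ u = dotProduct ξ x then 1 else 0) =
      81 + if u = x then 162 else 0 := by
    intro u _
    rw [← card_agree u x, Finset.card_filter]
  rw [Finset.sum_congr rfl h2, Finset.sum_add_distrib, Finset.sum_const, smul_eq_mul,
    Finset.sum_ite_eq' D x (fun _ => 162), mul_comm]

/-- a general double counting tool: weight the points of `D` by the size of their section -/
lemma sum_mem_sec (D : Finset W5) (ξ : W5) (g : ZMod 3 → ℕ) :
    ∑ u ∈ D, g (dotProduct ξ u) = ∑ j : ZMod 3, sec D ξ j * g j := by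
  rw [← Finset.sum_fiberwise D (fun u => dotProduct ξ u)]
  refine Finset.sum_congr rfl fun j _ => ?_
  unfold sec
  rw [Finset.sum_congr rfl (g := fun _ => g j), Finset.sum_const, smul_eq_mul]
  intro u hu
  rw [(Finset.mem_filter.mp hu).2]

lemma sum_sec_one (D : Finset W5) (ξ : W5) : ∑ j : ZMod 3, sec D ξ j = D.card := by
  have := sum_mem_sec D ξ (fun _ => 1)
  simp only [Finset.sum_const, smul_eq_mul, mul_one] at this
  exact this.symm

lemma sum_univ_three (g : ZMod 3 → ℕ) : ∑ j : ZMod 3, g j = g 0 + g 1 + g 2 := by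
  exact Fin.sum_univ_three g

lemma sec_total (D : Finset W5) (ξ : W5) : sec D ξ 0 + sec D ξ 1 + sec D ξ 2 = D.card := by
  rw [← sum_sec_one D ξ, sum_univ_three]

/-- representations of `w` as an ordered sum of two elements -/
def rep (D : Finset W5) (w : W5) : ℕ := (D.filter (fun u => w - u ∈ D)).card

/-- second identity -/
lemma sum_sec_two (D : Finset W5) (w : W5) :
    ∑ ξ : W5, ∑ j : ZMod 3, sec D ξ j * sec D ξ (dotProduct ξ w - j) =
      81 * D.card * D.card + 162 * rep D w := by
  have h1 : ∀ ξ : W5, ∑ j : ZMod 3, sec D ξ j * sec D ξ (dotProduct ξ w - j) =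
      ∑ u ∈ D, sec D ξ (dotProduct ξ (w - u)) := by
    intro ξ
    rw [← sum_mem_sec D ξ (fun j => sec D ξ (dotProduct ξ w - j))]
    refine Finset.sum_congr rfl fun u _ => ?_
    rw [dotProduct_sub]
  rw [Finset.sum_congr rfl (fun ξ _ => h1 ξ), Finset.sum_comm,
    Finset.sum_congr rfl (fun u _ => sum_sec D (w - u)), Finset.sum_add_distrib,
    Finset.sum_const, smul_eq_mul, rep, Finset.card_filter, Finset.mul_sum]
  congr 1
  · ring
  · refine Finset.sum_congr rfl fun u _ => ?_
    split_ifs <;> simp

/-- sum of the squares of the sections -/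
lemma sum_sec_sq (D : Finset W5) :
    ∑ ξ : W5, ∑ j : ZMod 3, sec D ξ j * sec D ξ j = 81 * D.card * D.card + 162 * D.card := by
  have h1 : ∀ ξ : W5, ∑ j : ZMod 3, sec D ξ j * sec D ξ j =
      ∑ u ∈ D, sec D ξ (dotProduct ξ u) := by
    intro ξ
    rw [← sum_mem_sec D ξ (fun j => sec D ξ j)]
  rw [Finset.sum_congr rfl (fun ξ _ => h1 ξ), Finset.sum_comm,
    Finset.sum_congr rfl (fun u _ => sum_sec D u), Finset.sum_add_distrib,
    Finset.sum_const, smul_eq_mul]
  congr 1
  · ring
  · rw [Finset.sum_congr rfl (g := fun _ => 162) (fun u hu => if_pos hu), Finset.sum_const,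
      smul_eq_mul, mul_comm]

/-- for a cap `-(u+v) ∈ D` only for `u = v` -/
lemma IsCap.neg_add_mem {W : Type*} [AddCommGroup W] [DecidableEq W] (h3 : ∀ w : W, 3 • w = 0)
    {D : Finset W} (hD : IsCap D) {u v : W}
    (hu : u ∈ D) (hv : v ∈ D) : -(u + v) ∈ D ↔ u = v := by
  constructor
  · intro h
    by_contra hne
    have h3u : u + u + u = 0 := by rw [← h3 u]; abel
    have h3v : v + v + v = 0 := by rw [← h3 v]; abel
    have h1 : u ≠ -(u + v) := by
      intro e
      apply hne
      have e1 : u + (u + v) = 0 := by nth_rewrite 1 [e]; exact neg_add_cancel _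
      have e2 : u + (u + v) = u + (u + u) := by rw [e1, ← add_assoc, h3u]
      exact (add_left_cancel (add_left_cancel e2)).symm
    have h2 : v ≠ -(u + v) := by
      intro e
      apply hne
      have e1 : v + (u + v) = 0 := by nth_rewrite 1 [e]; exact neg_add_cancel _
      have e2 : v + (u + v) = v + (v + v) := by rw [e1, ← add_assoc, h3v]
      exact add_right_cancel (add_left_cancel e2)
    refine hD {u, v, -(u + v)} ?_ (Finset.card_eq_three.mpr ⟨u, v, _, hne, h1, h2, rfl⟩) ?_
    · intro x hx
      simp only [Finset.mem_insert, Finset.mem_singleton] at hx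
      rcases hx with rfl | rfl | rfl <;> assumption
    · have hm : u ∉ ({v, -(u + v)} : Finset W) := by
        rw [Finset.mem_insert, Finset.mem_singleton, not_or]
        exact ⟨hne, h1⟩
      rw [Finset.sum_insert hm, Finset.sum_pair h2, ← add_assoc, add_neg_cancel]
  · rintro rfl
    have h3u : u + u + u = 0 := by rw [← h3 u]; abel
    have : -(u + u) = u := by
      rw [neg_eq_iff_add_eq_zero]
      exact h3u
    rw [this]
    exact hu

lemma three_smul_W5 (w : W5) : 3 • w = 0 := by
  funext i
  have : ∀ a : ZMod 3, 3 • a = 0 := by decide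
  exact this (w i)

/-- sum of the cubic expressions -/
lemma sum_sec_cube (D : Finset W5) (hD : IsCap D) :
    ∑ ξ : W5, ∑ j : ZMod 3, ∑ k : ZMod 3, sec D ξ j * (sec D ξ k * sec D ξ (-(j + k))) =
      81 * D.card ^ 3 + 162 * D.card := by
  have h1 : ∀ ξ : W5, ∑ j : ZMod 3, ∑ k : ZMod 3, sec D ξ j * (sec D ξ k * sec D ξ (-(j + k))) =
      ∑ u ∈ D, ∑ v ∈ D, sec D ξ (dotProduct ξ (-(u + v))) := by
    intro ξ
    have h2 : ∀ j : ZMod 3, ∑ k : ZMod 3, sec D ξ j * (sec D ξ k * sec D ξ (-(j + k))) =
        sec D ξ j * ∑ v ∈ D, sec D ξ (-(j + dotProduct ξ v)) := by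
      intro j
      rw [← Finset.mul_sum, sum_mem_sec D ξ (fun k => sec D ξ (-(j + k)))]
    rw [Finset.sum_congr rfl (fun j _ => h2 j),
      ← sum_mem_sec D ξ (fun j => ∑ v ∈ D, sec D ξ (-(j + dotProduct ξ v)))]
    refine Finset.sum_congr rfl fun u _ => Finset.sum_congr rfl fun v _ => ?_
    rw [dotProduct_neg, dotProduct_add]
  rw [Finset.sum_congr rfl (fun ξ _ => h1 ξ), Finset.sum_comm]
  have h2 : ∀ u ∈ D, ∑ ξ : W5, ∑ v ∈ D, sec D ξ (dotProduct ξ (-(u + v))) =
      81 * D.card * D.card + 162 := by
    intro u hu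
    rw [Finset.sum_comm, Finset.sum_congr rfl (fun v _ => sum_sec D (-(u + v))),
      Finset.sum_add_distrib, Finset.sum_const, smul_eq_mul]
    congr 1
    · ring
    · rw [Finset.sum_congr rfl (g := fun v => if u = v then 162 else 0)]
      · rw [Finset.sum_ite_eq D u (fun _ => 162), if_pos hu]
      · intro v hv
        simp only [hD.neg_add_mem three_smul_W5 hu hv]
  rw [Finset.sum_congr rfl h2, Finset.sum_const, smul_eq_mul]
  ring

/-- the solid formula: sections by two independent functionals -/
lemma solid_card (D : Finset W5) (ξ η : W5) (s t : ZMod 3) :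
    3 * (D.filter (fun u => dotProduct ξ u = s ∧ dotProduct η u = t)).card + D.card =
      sec D ξ s + sec D η t + sec D (ξ + η) (s + t) + sec D (ξ - η) (s - t) := by
  have key : ∀ a b s t : ZMod 3, 3 * (if a = s ∧ b = t then 1 else 0) + 1 =
      (if a = s then 1 else 0) + (if b = t then 1 else 0) + (if a + b = s + t then 1 else 0) +
        (if a - b = s - t then 1 else 0) := by decide
  unfold sec
  simp only [Finset.card_filter, Finset.mul_sum, ← Finset.sum_add_distrib]
  rw [Finset.card_eq_sum_ones, ← Finset.sum_add_distrib]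
  refine Finset.sum_congr rfl fun u _ => ?_
  rw [add_dotProduct, sub_dotProduct]
  exact key _ _ s t

end Pool.Agent.H29.EGZ
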