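import Mathlib
import Pool.Agent.H29.EGZ.Moments

/-!
# 45-caps: the possible hyperplane sections
-/

set_option autoImplicit false

namespace Pool.Agent.H29.EGZ

open Finset

lemma sec_zero_zero (D : Finset W5) : sec D 0 0 = D.card := by
  unfold sec
  simp

lemma sec_zero_of_ne (D : Finset W5) {j : ZMod 3} (hj : j ≠ 0) : sec D 0 j = 0 := by
  unfold sec
  rw [Finset.card_eq_zero, Finset.filter_eq_empty_iff]
  intro u _
  rw [zero_dotProduct]
  exact fun h => hj h.symm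

/-- square deviation from 15 -/
def qd (a b c : ℤ) : ℤ := (a - 15) ^ 2 + (b - 15) ^ 2 + (c - 15) ^ 2

/-- product of the deviations from 15 -/
def pd (a b c : ℤ) : ℤ := (a - 15) * (b - 15) * (c - 15)

lemma sum_qd {D : Finset W5} (h45 : D.card = 45) :
    ∑ ξ : W5, qd (sec D ξ 0) (sec D ξ 1) (sec D ξ 2) = 7290 := by
  have h1 := sum_sec_sq D
  rw [h45] at h1
  have h2 : ∀ ξ : W5, ((∑ j : ZMod 3, sec D ξ j * sec D ξ j : ℕ) : ℤ) =
      675 + qd (sec D ξ 0) (sec D ξ 1) (sec D ξ 2) := by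
    intro ξ
    have h3 : ((sec D ξ 0 + sec D ξ 1 + sec D ξ 2 : ℕ) : ℤ) = 45 := by
      rw [sec_total D ξ, h45]; norm_num
    rw [sum_univ_three]
    push_cast at h3 ⊢
    unfold qd
    linear_combination 30 * h3
  have h4 : ((∑ ξ : W5, ∑ j : ZMod 3, sec D ξ j * sec D ξ j : ℕ) : ℤ) =
      ∑ ξ : W5, (675 + qd (sec D ξ 0) (sec D ξ 1) (sec D ξ 2)) := by
    rw [Nat.cast_sum]
    exact Finset.sum_congr rfl fun ξ _ => h2 ξ
  rw [h1, Finset.sum_add_distrib, Finset.sum_const, Finset.card_univ, card_W5] at h4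
  norm_num at h4
  linarith

lemma sum_pd {D : Finset W5} (hD : IsCap D) (h45 : D.card = 45) :
    ∑ ξ : W5, pd (sec D ξ 0) (sec D ξ 1) (sec D ξ 2) = 810 := by
  have h1 := sum_sec_cube D hD
  rw [h45] at h1
  have h2 : ∀ ξ : W5, ((∑ j : ZMod 3, ∑ k : ZMod 3,
      sec D ξ j * (sec D ξ k * sec D ξ (-(j + k))) : ℕ) : ℤ) =
      30375 + 9 * pd (sec D ξ 0) (sec D ξ 1) (sec D ξ 2) := by
    intro ξ
    have h3 : ((sec D ξ 0 + sec D ξ 1 + sec D ξ 2 : ℕ) : ℤ) = 45 := by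
      rw [sec_total D ξ, h45]; norm_num
    simp only [sum_univ_three]
    rw [show (-(0 + 0) : ZMod 3) = 0 by decide, show (-(0 + 1) : ZMod 3) = 2 by decide,
      show (-(0 + 2) : ZMod 3) = 1 by decide, show (-(1 + 0) : ZMod 3) = 2 by decide,
      show (-(1 + 1) : ZMod 3) = 1 by decide, show (-(1 + 2) : ZMod 3) = 0 by decide,
      show (-(2 + 0) : ZMod 3) = 1 by decide, show (-(2 + 1) : ZMod 3) = 0 by decide,
      show (-(2 + 2) : ZMod 3) = 2 by decide]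
    push_cast at h3 ⊢
    unfold pd
    generalize (sec D ξ 0 : ℤ) = a at h3 ⊢
    generalize (sec D ξ 1 : ℤ) = b at h3 ⊢
    generalize (sec D ξ 2 : ℤ) = c at h3 ⊢
    have hc : c = 45 - a - b := by linarith
    subst hc
    ring
  have h4 : ((∑ ξ : W5, ∑ j : ZMod 3, ∑ k : ZMod 3,
      sec D ξ j * (sec D ξ k * sec D ξ (-(j + k))) : ℕ) : ℤ) =
      ∑ ξ : W5, (30375 + 9 * pd (sec D ξ 0) (sec D ξ 1) (sec D ξ 2)) := by
    rw [Nat.cast_sum]
    exact Finset.sum_congr rfl fun ξ _ => h2 ξ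
  rw [h1, Finset.sum_add_distrib, Finset.sum_const, Finset.card_univ, card_W5,
    ← Finset.mul_sum] at h4
  norm_num at h4
  linarith

/-- the two possible types -/
def Ty (a b c : ℕ) : Prop :=
  (a = 15 ∧ b = 15 ∧ c = 15) ∨ (a = 9 ∧ b = 18 ∧ c = 18) ∨ (a = 18 ∧ b = 9 ∧ c = 18) ∨
    (a = 18 ∧ b = 18 ∧ c = 9)

instance (a b c : ℕ) : Decidable (Ty a b c) := by unfold Ty; infer_instance

/-- one entry at least 19 and another one at least 18 -/
def Big (a b c : ℕ) : Prop :=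
  (19 ≤ a ∧ 18 ≤ b) ∨ (19 ≤ a ∧ 18 ≤ c) ∨ (19 ≤ b ∧ 18 ≤ a) ∨ (19 ≤ b ∧ 18 ≤ c) ∨
    (19 ≤ c ∧ 18 ≤ a) ∨ (19 ≤ c ∧ 18 ≤ b)

instance (a b c : ℕ) : Decidable (Big a b c) := by unfold Big; infer_instance

lemma type_check : ∀ a : Fin 46, ∀ b : Fin 46, (a : ℕ) + b ≤ 45 →
    Big a b (45 - (a : ℕ) - b) ∨
      (0 < qd (a : ℕ) (b : ℕ) ((45 - (a : ℕ) - b : ℕ) : ℤ) + pd (a : ℕ) (b : ℕ) ((45 - (a : ℕ) - b : ℕ) : ℤ) ∨
      (qd (a : ℕ) (b : ℕ) ((45 - (a : ℕ) - b : ℕ) : ℤ) + pd (a : ℕ) (b : ℕ) ((45 - (a : ℕ) - b : ℕ) : ℤ) = 0 ∧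
        Ty a b (45 - (a : ℕ) - b))) := by
  unfold qd pd
  decide +kernel

lemma type_or {a b c : ℕ} (h : a + b + c = 45) :
    Big a b c ∨ (0 < qd a b c + pd a b c ∨ (qd a b c + pd a b c = 0 ∧ Ty a b c)) := by
  have ha : a < 46 := by omega
  have hb : b < 46 := by omega
  have hc : c = 45 - a - b := by omega
  have := type_check ⟨a, ha⟩ ⟨b, hb⟩ (by show a + b ≤ 45; omega)
  simp only at this
  rw [hc]
  exact this

/-- **Dichotomy**: some direction has two big sections, or every direction has type `(15,15,15)` or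
`(9,18,18)`. -/
theorem dichotomy {D : Finset W5} (hD : IsCap D) (h45 : D.card = 45) :
    (∃ ξ : W5, ξ ≠ 0 ∧ Big (sec D ξ 0) (sec D ξ 1) (sec D ξ 2)) ∨
      (∀ ξ : W5, ξ ≠ 0 → Ty (sec D ξ 0) (sec D ξ 1) (sec D ξ 2)) := by
  by_cases hbig : ∃ ξ : W5, ξ ≠ 0 ∧ Big (sec D ξ 0) (sec D ξ 1) (sec D ξ 2)
  · exact Or.inl hbig
  right
  push Not at hbig
  have h1 := sum_qd h45
  have h2 := sum_pd hD h45
  have h0 : qd (sec D 0 0) (sec D 0 1) (sec D 0 2) + pd (sec D 0 0) (sec D 0 1) (sec D 0 2) =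
      8100 := by
    rw [sec_zero_zero, sec_zero_of_ne D (by decide : (1 : ZMod 3) ≠ 0),
      sec_zero_of_ne D (by decide : (2 : ZMod 3) ≠ 0), h45]
    norm_num [qd, pd]
  have hsum : ∑ ξ ∈ (univ : Finset W5).erase 0, (qd (sec D ξ 0) (sec D ξ 1) (sec D ξ 2) +
      pd (sec D ξ 0) (sec D ξ 1) (sec D ξ 2)) = 0 := by
    have h3 := Finset.add_sum_erase (univ : Finset W5) (fun ξ =>
      qd (sec D ξ 0) (sec D ξ 1) (sec D ξ 2) + pd (sec D ξ 0) (sec D ξ 1) (sec D ξ 2))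
      (Finset.mem_univ 0)
    rw [Finset.sum_add_distrib (s := univ), h1, h2] at h3
    rw [h0] at h3
    linarith
  have hnn : ∀ ξ ∈ (univ : Finset W5).erase 0, 0 ≤ qd (sec D ξ 0) (sec D ξ 1) (sec D ξ 2) +
      pd (sec D ξ 0) (sec D ξ 1) (sec D ξ 2) := by
    intro ξ hξ
    have hne := Finset.ne_of_mem_erase hξ
    rcases type_or (sec_total D ξ |>.trans h45) with h | h | h
    · exact absurd h (hbig ξ hne)
    · exact h.le
    · exact h.1.ge
  intro ξ hξ
  have hz := (Finset.sum_eq_zero_iff_of_nonneg hnn).mp hsum ξ (Finset.mem_erase.mpr ⟨hξ, Finset.mem_univ _⟩)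
  rcases type_or (sec_total D ξ |>.trans h45) with h | h | h
  · exact absurd h (hbig ξ hξ)
  · exact absurd hz h.ne'
  · exact h.2

section CaseI

variable {D : Finset W5} (hT : ∀ ξ : W5, ξ ≠ 0 → Ty (sec D ξ 0) (sec D ξ 1) (sec D ξ 2))

include hT in
/-- there are 110 functionals of type `(9,18,18)` -/
theorem card_special (h45 : D.card = 45) :
    ((univ : Finset W5).filter (fun ξ => ξ ≠ 0 ∧ sec D ξ 0 ≠ 15)).card = 110 := by
  have h1 := sum_qd h45
  have h3 := Finset.add_sum_erase (univ : Finset W5) (fun ξ =>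
      qd (sec D ξ 0) (sec D ξ 1) (sec D ξ 2)) (Finset.mem_univ 0)
  rw [h1] at h3
  have h0 : qd (sec D 0 0) (sec D 0 1) (sec D 0 2) = 1350 := by
    rw [sec_zero_zero, sec_zero_of_ne D (by decide : (1 : ZMod 3) ≠ 0),
      sec_zero_of_ne D (by decide : (2 : ZMod 3) ≠ 0), h45]
    norm_num [qd]
  have h4 : ∀ ξ ∈ (univ : Finset W5).erase 0, qd (sec D ξ 0) (sec D ξ 1) (sec D ξ 2) =
      if sec D ξ 0 ≠ 15 then 54 else 0 := by
    intro ξ hξ
    rcases hT ξ (Finset.ne_of_mem_erase hξ) with h | h | h | h <;> obtain ⟨ha, hb, hc⟩ := h <;>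
      rw [ha, hb, hc] <;> norm_num [qd]
  rw [Finset.sum_congr rfl h4, h0, ← Finset.sum_filter, Finset.sum_const] at h3
  have h5 : (univ : Finset W5).filter (fun ξ => ξ ≠ 0 ∧ sec D ξ 0 ≠ 15) =
      ((univ : Finset W5).erase 0).filter (fun ξ => sec D ξ 0 ≠ 15) := by
    ext ξ
    simp
  rw [h5]
  simp only [nsmul_eq_mul] at h3
  have h6 : ((((univ : Finset W5).erase 0).filter (fun ξ => sec D ξ 0 ≠ 15)).card : ℤ) = 110 := by
    linarith
  exact_mod_cast h6

lemma zmod3_cases (t : ZMod 3) : t = 0 ∨ t = 1 ∨ t = 2 := by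
  revert t; decide

include hT in
lemma sec_formula {ξ : W5} (hξ : ξ ≠ 0) (t : ZMod 3) :
    sec D ξ t + 9 * (if sec D ξ t = 9 then 1 else 0) =
      15 + 3 * (if sec D ξ 0 ≠ 15 then 1 else 0) := by
  rcases zmod3_cases t with rfl | rfl | rfl <;>
    rcases hT ξ hξ with h | h | h | h <;> obtain ⟨ha, hb, hc⟩ := h <;> simp [ha, hb, hc]

include hT in
lemma conv_formula {ξ : W5} (hξ : ξ ≠ 0) (t : ZMod 3) :
    ∑ j : ZMod 3, sec D ξ j * sec D ξ (t - j) + 27 * (if sec D ξ 0 ≠ 15 then 1 else 0) =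
      675 + 81 * (if sec D ξ (-t) = 9 then 1 else 0) := by
  rw [sum_univ_three]
  rcases zmod3_cases t with rfl | rfl | rfl
  · rw [show (0 - 0 : ZMod 3) = 0 by decide, show (0 - 1 : ZMod 3) = 2 by decide,
      show (0 - 2 : ZMod 3) = 1 by decide, show (-0 : ZMod 3) = 0 by decide]
    rcases hT ξ hξ with h | h | h | h <;> obtain ⟨ha, hb, hc⟩ := h <;> simp [ha, hb, hc]
  · rw [show (1 - 0 : ZMod 3) = 1 by decide, show (1 - 1 : ZMod 3) = 0 by decide,
      show (1 - 2 : ZMod 3) = 2 by decide, show (-1 : ZMod 3) = 2 by decide]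
    rcases hT ξ hξ with h | h | h | h <;> obtain ⟨ha, hb, hc⟩ := h <;> simp [ha, hb, hc]
  · rw [show (2 - 0 : ZMod 3) = 2 by decide, show (2 - 1 : ZMod 3) = 1 by decide,
      show (2 - 2 : ZMod 3) = 0 by decide, show (-2 : ZMod 3) = 1 by decide]
    rcases hT ξ hξ with h | h | h | h <;> obtain ⟨ha, hb, hc⟩ := h <;> simp [ha, hb, hc]

/-- number of functionals whose small section passes through `x` -/
def nine (D : Finset W5) (x : W5) : ℕ :=
  ((univ : Finset W5).filter (fun ξ => ξ ≠ 0 ∧ sec D ξ (dotProduct ξ x) = 9)).card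

lemma sum_erase_ite (P : W5 → Prop) [DecidablePred P] (k : ℕ) :
    ∑ ξ ∈ (univ : Finset W5).erase 0, k * (if P ξ then 1 else 0) =
      k * ((univ : Finset W5).filter (fun ξ => ξ ≠ 0 ∧ P ξ)).card := by
  rw [← Finset.mul_sum, ← Finset.card_filter]
  congr 2
  ext ξ
  simp

include hT in
/-- `nine D x = 22` on `D` and `40` off `D` -/
theorem nine_eq (h45 : D.card = 45) (x : W5) :
    nine D x + (if x ∈ D then 18 else 0) = 40 := by
  have h1 := sum_sec D x
  rw [← Finset.add_sum_erase _ _ (Finset.mem_univ (0 : W5)), zero_dotProduct, sec_zero_zero,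
    h45] at h1
  have h2 : ∑ ξ ∈ (univ : Finset W5).erase 0, (sec D ξ (dotProduct ξ x) +
      9 * (if sec D ξ (dotProduct ξ x) = 9 then 1 else 0)) =
      ∑ ξ ∈ (univ : Finset W5).erase 0, (15 + 3 * (if sec D ξ 0 ≠ 15 then 1 else 0)) :=
    Finset.sum_congr rfl fun ξ hξ => sec_formula hT (Finset.ne_of_mem_erase hξ) _
  rw [Finset.sum_add_distrib, Finset.sum_add_distrib,
    sum_erase_ite (fun ξ => sec D ξ (dotProduct ξ x) = 9),
    sum_erase_ite (fun ξ => sec D ξ 0 ≠ 15), card_special hT h45, Finset.sum_const,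
    Finset.card_erase_of_mem (Finset.mem_univ _), Finset.card_univ, card_W5] at h2
  have h3 : nine D x = ((univ : Finset W5).filter
    (fun ξ => ξ ≠ 0 ∧ sec D ξ (dotProduct ξ x) = 9)).card := rfl
  rw [← h3] at h2
  simp only [smul_eq_mul] at h2
  split_ifs at h1 ⊢ <;> omega

include hT in
/-- every point `w` with `-w ∉ D` is an ordered sum of two elements of `D` in exactly 10 ways -/
theorem rep_eq (h45 : D.card = 45) (w : W5) :
    rep D w + (if -w ∈ D then 9 else 0) = 10 := by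
  have h1 := sum_sec_two D w
  have h00 : ∑ j : ZMod 3, sec D 0 j * sec D 0 (dotProduct 0 w - j) = 2025 := by
    rw [zero_dotProduct, sum_univ_three, sec_zero_zero,
      sec_zero_of_ne D (by decide : (1 : ZMod 3) ≠ 0),
      sec_zero_of_ne D (by decide : (2 : ZMod 3) ≠ 0), h45, sub_zero, sec_zero_zero, h45,
      zero_mul, zero_mul]
    norm_num
  rw [← Finset.add_sum_erase _ _ (Finset.mem_univ (0 : W5)), h00, h45] at h1
  have h2 : ∑ ξ ∈ (univ : Finset W5).erase 0, (∑ j : ZMod 3, sec D ξ j *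
      sec D ξ (dotProduct ξ w - j) + 27 * (if sec D ξ 0 ≠ 15 then 1 else 0)) =
      ∑ ξ ∈ (univ : Finset W5).erase 0,
        (675 + 81 * (if sec D ξ (dotProduct ξ (-w)) = 9 then 1 else 0)) := by
    refine Finset.sum_congr rfl fun ξ hξ => ?_
    rw [dotProduct_neg]
    exact conv_formula hT (Finset.ne_of_mem_erase hξ) _
  rw [Finset.sum_add_distrib, Finset.sum_add_distrib,
    sum_erase_ite (fun ξ => sec D ξ (dotProduct ξ (-w)) = 9),
    sum_erase_ite (fun ξ => sec D ξ 0 ≠ 15), card_special hT h45, Finset.sum_const,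
    Finset.card_erase_of_mem (Finset.mem_univ _), Finset.card_univ, card_W5] at h2
  have h3 : nine D (-w) = ((univ : Finset W5).filter
    (fun ξ => ξ ≠ 0 ∧ sec D ξ (dotProduct ξ (-w)) = 9)).card := rfl
  rw [← h3] at h2
  have h4 := nine_eq hT h45 (-w)
  simp only [smul_eq_mul] at h2
  split_ifs at h4 ⊢ <;> omega

end CaseI

end Pool.Agent.H29.EGZ
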