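import Mathlib
import Pool.Agent.H29.EGZ.Concrete
import Pool.Agent.H29.EGZ.Types

/-!
# Transport of caps and of good lifts by affine maps
-/

set_option autoImplicit false

namespace Pool.Agent.H29.EGZ

open Finset Matrix

variable {r : ℕ}

/-- a good lift of `D` : no sum of nine terms (multiplicities at most 8) vanishes -/
structure GoodLift (D : Finset (Fin r → ZMod 3))
    (x : (Fin r → ZMod 3) → (Fin r → ZMod 9)) : Prop where
  lift : ∀ u ∈ D, red r (x u) = u
  good : ∀ b : (Fin r → ZMod 3) → ℕ, (∀ u ∈ D, b u ≤ 8) → ∑ u ∈ D, b u = 9 →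
    ∑ u ∈ D, b u • x u ≠ 0

lemma GoodLift.subset {D C : Finset (Fin r → ZMod 3)} {x : (Fin r → ZMod 3) → (Fin r → ZMod 9)}
    (h : GoodLift D x) (hC : C ⊆ D) : GoodLift C x where
  lift u hu := h.lift u (hC hu)
  good b hb h9 h0 := by
    classical
    refine h.good (fun u => if u ∈ C then b u else 0) ?_ ?_ ?_
    · intro u _
      show (if u ∈ C then b u else 0) ≤ 8
      split_ifs with hu
      · exact hb u hu
      · omega
    · rw [← Finset.sum_filter, Finset.filter_mem_eq_inter, Finset.inter_eq_right.mpr hC, h9]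
    · have h1 : ∀ u ∈ D, (if u ∈ C then b u else 0) • x u = if u ∈ C then b u • x u else 0 := by
        intro u _
        split_ifs <;> simp
      rw [Finset.sum_congr rfl h1, ← Finset.sum_filter, Finset.filter_mem_eq_inter,
        Finset.inter_eq_right.mpr hC, h0]

lemma IsCap.subset {W : Type*} [AddCommGroup W] {D C : Finset W} (h : IsCap D) (hC : C ⊆ D) :
    IsCap C := fun T hT => h T (hT.trans hC)

/-- the conjectured formula at `n = 9`, `r = 5` gives a cap with exactly 45 points and a good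
lift -/
theorem exists_goodLift
    (h : sInf {l : ℕ | ∀ f : Fin l → (Fin 5 → ZMod 9), ∃ I : Finset (Fin l),
          I.card = AddMonoid.exponent (Fin 5 → ZMod 9) ∧ ∑ i ∈ I, f i = 0}
        = (sInf {l : ℕ | ∀ S : Finset (Fin 5 → ZMod 3), l ≤ S.card →
              ∃ T ⊆ S, T.card = AddMonoid.exponent (Fin 5 → ZMod 3) ∧ ∑ x ∈ T, x = 0} - 1)
            * (9 - 1) + 1) :
    ∃ D : Finset W5, D.card = 45 ∧ IsCap D ∧ ∃ x : W5 → (Fin 5 → ZMod 9), GoodLift D x := by
  obtain ⟨D, h45, hD, _, x, hx, hb⟩ := structure_nine h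
  obtain ⟨C, hC, hC45⟩ := Finset.exists_subset_card_eq h45
  have hg : GoodLift D x := ⟨hx, hb⟩
  exact ⟨C, hC45, hD.subset hC, x, hg.subset hC⟩

/-! ### the value `e(b)` -/

/-- `e(b) = -(∑ b_u x_u)/3` -/
def ev (D : Finset (Fin r → ZMod 3)) (x : (Fin r → ZMod 3) → (Fin r → ZMod 9))
    (b : (Fin r → ZMod 3) → ℕ) : Fin r → ZMod 3 :=
  -(third r (∑ u ∈ D, b u • x u))

/-- relations: six terms, multiplicities at most 5, sum zero -/
structure Rel (D : Finset (Fin r → ZMod 3)) (b : (Fin r → ZMod 3) → ℕ) : Prop where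
  le : ∀ u ∈ D, b u ≤ 5
  six : ∑ u ∈ D, b u = 6
  zero : ∑ u ∈ D, b u • u = 0

theorem GoodLift.ev_notMem {D : Finset (Fin r → ZMod 3)}
    {x : (Fin r → ZMod 3) → (Fin r → ZMod 9)} (h : GoodLift D x)
    {b : (Fin r → ZMod 3) → ℕ} (hb : Rel D b) : ev D x b ∉ D :=
  six_term h.lift h.good b hb.le hb.six hb.zero

lemma GoodLift.red_sum {D : Finset (Fin r → ZMod 3)}
    {x : (Fin r → ZMod 3) → (Fin r → ZMod 9)} (hx : ∀ u ∈ D, red r (x u) = u)
    (b : (Fin r → ZMod 3) → ℕ) : red r (∑ u ∈ D, b u • x u) = ∑ u ∈ D, b u • u := by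
  rw [map_sum]
  refine Finset.sum_congr rfl fun v hv => ?_
  rw [map_nsmul, hx v hv]

/-! ### multiplication by three -/

/-- `v ↦ 3 v~` from `(ZMod 3)^r` to `(ZMod 9)^r` -/
def mul3 (r : ℕ) (v : Fin r → ZMod 3) : Fin r → ZMod 9 := fun i => ((3 * (v i).val : ℕ) : ZMod 9)

lemma mul3_add (v w : Fin r → ZMod 3) : mul3 r (v + w) = mul3 r v + mul3 r w := by
  funext i
  have : ∀ a b : ZMod 3, ((3 * (a + b).val : ℕ) : ZMod 9) =
      ((3 * a.val : ℕ) : ZMod 9) + ((3 * b.val : ℕ) : ZMod 9) := by decide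
  exact this _ _

lemma mul3_zero : mul3 r 0 = 0 := by
  funext i
  simp [mul3]

lemma red_mul3 (v : Fin r → ZMod 3) : red r (mul3 r v) = 0 := by
  funext i
  have : ∀ a : ZMod 3, ZMod.castHom (by norm_num : 3 ∣ 9) (ZMod 3) ((3 * a.val : ℕ) : ZMod 9) = 0 := by
    decide
  exact this _

lemma third_mul3 (v : Fin r → ZMod 3) : third r (mul3 r v) = v := by
  funext i
  have : ∀ a : ZMod 3, ((((3 * a.val : ℕ) : ZMod 9).val / 3 : ℕ) : ZMod 3) = a := by
    decide
  exact this _

lemma mul3_nsmul (k : ℕ) (v : Fin r → ZMod 3) : mul3 r (k • v) = k • mul3 r v := by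
  induction k with
  | zero => simp [mul3_zero]
  | succ k ih => rw [succ_nsmul, succ_nsmul, mul3_add, ih]

lemma mul3_sum {κ : Type*} (K : Finset κ) (g : κ → Fin r → ZMod 3) :
    mul3 r (∑ k ∈ K, g k) = ∑ k ∈ K, mul3 r (g k) := by
  classical
  induction K using Finset.induction_on with
  | empty => simp [mul3_zero]
  | insert a K ha ih => rw [Finset.sum_insert ha, Finset.sum_insert ha, mul3_add, ih]

lemma mul3_third {v : Fin r → ZMod 9} (hv : red r v = 0) : mul3 r (third r v) = v := by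
  funext i
  have : ∀ a : ZMod 9, ZMod.castHom (by norm_num : 3 ∣ 9) (ZMod 3) a = 0 →
      ((3 * ((a.val / 3 : ℕ) : ZMod 3).val : ℕ) : ZMod 9) = a := by
    decide
  exact this _ (congrFun hv i)

/-! ### linear maps -/

/-- the matrix over `ZMod 9` with the same digits -/
def lin9 (M : Matrix (Fin r) (Fin r) (ZMod 3)) : Matrix (Fin r) (Fin r) (ZMod 9) :=
  M.map (fun a => ((a.val : ℕ) : ZMod 9))

lemma red_lin9 (M : Matrix (Fin r) (Fin r) (ZMod 3)) (z : Fin r → ZMod 9) :
    red r ((lin9 M) *ᵥ z) = M *ᵥ (red r z) := by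
  funext i
  rw [red_apply]
  simp only [mulVec, dotProduct, map_sum, map_mul]
  refine Finset.sum_congr rfl fun j _ => ?_
  rw [← red_apply r z j]
  congr 1
  have : ∀ a : ZMod 3, ZMod.castHom (by norm_num : 3 ∣ 9) (ZMod 3) ((a.val : ℕ) : ZMod 9) = a := by
    decide
  exact this _

lemma lin9_mul3 (M : Matrix (Fin r) (Fin r) (ZMod 3)) (v : Fin r → ZMod 3) :
    (lin9 M) *ᵥ (mul3 r v) = mul3 r (M *ᵥ v) := by
  funext i
  have h1 : ∀ a b : ZMod 3, ((a.val : ℕ) : ZMod 9) * ((3 * b.val : ℕ) : ZMod 9) =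
      ((3 * (a * b).val : ℕ) : ZMod 9) := by decide
  have h2 : ∀ (K : Finset (Fin r)) (g : Fin r → ZMod 3),
      ((3 * (∑ k ∈ K, g k).val : ℕ) : ZMod 9) = ∑ k ∈ K, ((3 * (g k).val : ℕ) : ZMod 9) := by
    intro K g
    have h3 := congrFun (mul3_sum (r := r) K (fun k => fun _ => g k)) i
    simp only [mul3, Finset.sum_apply] at h3
    exact h3
  show ∑ j, lin9 M i j * mul3 r v j = _
  have h4 : mul3 r (M *ᵥ v) i = ((3 * (∑ j, M i j * v j).val : ℕ) : ZMod 9) := rfl
  rw [h4, h2]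
  exact Finset.sum_congr rfl fun j _ => h1 _ _

lemma third_lin9 (M : Matrix (Fin r) (Fin r) (ZMod 3)) {z : Fin r → ZMod 9} (hz : red r z = 0) :
    third r ((lin9 M) *ᵥ z) = M *ᵥ (third r z) := by
  conv_lhs => rw [← mul3_third hz, lin9_mul3, third_mul3]

lemma lin9_inj {M N : Matrix (Fin r) (Fin r) (ZMod 3)} (hNM : N * M = 1) {z : Fin r → ZMod 9}
    (h : (lin9 M) *ᵥ z = 0) : z = 0 := by
  have h1 : red r z = 0 := by
    have h2 := red_lin9 M z
    rw [h, map_zero] at h2
    have h3 : N *ᵥ (M *ᵥ red r z) = 0 := by rw [← h2, mulVec_zero]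
    rwa [mulVec_mulVec, hNM, one_mulVec] at h3
  have h4 : third r z = 0 := by
    have h2 := third_lin9 M h1
    rw [h, (div3 r).zero] at h2
    have h3 : N *ᵥ (M *ᵥ third r z) = 0 := by rw [← h2, mulVec_zero]
    rwa [mulVec_mulVec, hNM, one_mulVec] at h3
  exact (div3 r).inj z h1 h4

/-- an invertible affine map of `(ZMod 3)^r` -/
structure Aff (r : ℕ) where
  M : Matrix (Fin r) (Fin r) (ZMod 3)
  N : Matrix (Fin r) (Fin r) (ZMod 3)
  t : Fin r → ZMod 3
  MN : M * N = 1
  NM : N * M = 1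

/-- the action -/
def Aff.act (g : Aff r) (u : Fin r → ZMod 3) : Fin r → ZMod 3 := g.M *ᵥ u + g.t

/-- the inverse map -/
def Aff.inv (g : Aff r) : Aff r where
  M := g.N
  N := g.M
  t := -(g.N *ᵥ g.t)
  MN := g.NM
  NM := g.MN

lemma Aff.inv_act_act (g : Aff r) (u : Fin r → ZMod 3) : g.inv.act (g.act u) = u := by
  show g.N *ᵥ (g.M *ᵥ u + g.t) + -(g.N *ᵥ g.t) = u
  rw [mulVec_add, mulVec_mulVec, g.NM, one_mulVec, add_neg_cancel_right]

lemma Aff.act_inv_act (g : Aff r) (u : Fin r → ZMod 3) : g.act (g.inv.act u) = u := by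
  show g.M *ᵥ (g.N *ᵥ u + -(g.N *ᵥ g.t)) + g.t = u
  rw [mulVec_add, mulVec_neg, mulVec_mulVec, mulVec_mulVec, g.MN, one_mulVec, one_mulVec,
    neg_add_cancel_right]

lemma Aff.act_injective (g : Aff r) : Function.Injective g.act :=
  Function.LeftInverse.injective g.inv_act_act

/-- the image of a set -/
def Aff.img (g : Aff r) (D : Finset (Fin r → ZMod 3)) : Finset (Fin r → ZMod 3) :=
  D.map ⟨g.act, g.act_injective⟩

lemma Aff.mem_img (g : Aff r) (D : Finset (Fin r → ZMod 3)) (u : Fin r → ZMod 3) :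
    u ∈ g.img D ↔ g.inv.act u ∈ D := by
  simp only [Aff.img, Finset.mem_map, Function.Embedding.coeFn_mk]
  constructor
  · rintro ⟨v, hv, rfl⟩
    rwa [g.inv_act_act]
  · intro h
    exact ⟨_, h, g.act_inv_act u⟩

lemma Aff.act_mem_img (g : Aff r) (D : Finset (Fin r → ZMod 3)) (u : Fin r → ZMod 3) :
    g.act u ∈ g.img D ↔ u ∈ D := by
  rw [g.mem_img, g.inv_act_act]

lemma Aff.card_img (g : Aff r) (D : Finset (Fin r → ZMod 3)) : (g.img D).card = D.card :=
  Finset.card_map _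

lemma Aff.img_inv_img (g : Aff r) (D : Finset (Fin r → ZMod 3)) : g.inv.img (g.img D) = D := by
  ext u
  rw [g.inv.mem_img, g.mem_img]
  have : g.inv.act (g.inv.inv.act u) = u := g.inv.act_inv_act u
  rw [this]

lemma Aff.sum_img {β : Type*} [AddCommMonoid β] (g : Aff r) (D : Finset (Fin r → ZMod 3))
    (F : (Fin r → ZMod 3) → β) : ∑ u ∈ g.img D, F u = ∑ u ∈ D, F (g.act u) := by
  rw [Aff.img, Finset.sum_map]
  rfl

lemma Aff.isCap_img (g : Aff r) {D : Finset (Fin r → ZMod 3)} (h : IsCap D) :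
    IsCap (g.img D) := by
  classical
  intro T hT hT3 h0
  refine h (g.inv.img T) ?_ ?_ ?_
  · intro u hu
    rw [g.inv.mem_img] at hu
    have h1 := hT hu
    rw [g.mem_img] at h1
    have : g.inv.act (g.inv.inv.act u) = u := g.inv.act_inv_act u
    rwa [this] at h1
  · rw [g.inv.card_img, hT3]
  · rw [g.inv.sum_img]
    show ∑ u ∈ T, (g.N *ᵥ u + -(g.N *ᵥ g.t)) = 0
    rw [Finset.sum_add_distrib, ← Matrix.mulVec_sum, h0, mulVec_zero, zero_add, Finset.sum_const,
      hT3]
    exact (div3 r).three _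

/-- the lift of a vector with the same digits -/
def digit (v : Fin r → ZMod 3) : Fin r → ZMod 9 := fun i => (((v i).val : ℕ) : ZMod 9)

lemma red_digit (v : Fin r → ZMod 3) : red r (digit v) = v := by
  funext i
  have : ∀ a : ZMod 3, ZMod.castHom (by norm_num : 3 ∣ 9) (ZMod 3) ((a.val : ℕ) : ZMod 9) = a := by
    decide
  exact this _

lemma third_three (z : Fin r → ZMod 9) : third r (3 • z) = red r z := (div3 r).smul z

lemma nine_smul (z : Fin r → ZMod 9) : 9 • z = 0 := by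
  funext i
  have : ∀ a : ZMod 9, 9 • a = 0 := by decide
  exact this (z i)

/-- transport of a lift -/
def Aff.lift (g : Aff r) (x : (Fin r → ZMod 3) → (Fin r → ZMod 9)) :
    (Fin r → ZMod 3) → (Fin r → ZMod 9) :=
  fun u => (lin9 g.M) *ᵥ (x (g.inv.act u)) + digit g.t

lemma Aff.lift_act (g : Aff r) (x : (Fin r → ZMod 3) → (Fin r → ZMod 9)) (u : Fin r → ZMod 3) :
    g.lift x (g.act u) = (lin9 g.M) *ᵥ (x u) + digit g.t := by
  rw [Aff.lift, g.inv_act_act]

lemma Aff.sum_lift (g : Aff r) (D : Finset (Fin r → ZMod 3))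
    (x : (Fin r → ZMod 3) → (Fin r → ZMod 9)) (b : (Fin r → ZMod 3) → ℕ) :
    ∑ u ∈ g.img D, b u • g.lift x u =
      (lin9 g.M) *ᵥ (∑ u ∈ D, b (g.act u) • x u) + (∑ u ∈ D, b (g.act u)) • digit g.t := by
  rw [g.sum_img, Finset.sum_smul, Matrix.mulVec_sum, ← Finset.sum_add_distrib]
  refine Finset.sum_congr rfl fun u _ => ?_
  rw [g.lift_act, smul_add, Matrix.mulVec_smul]

/-- good lifts are transported by affine maps -/
theorem GoodLift.map (g : Aff r) {D : Finset (Fin r → ZMod 3)}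
    {x : (Fin r → ZMod 3) → (Fin r → ZMod 9)} (h : GoodLift D x) :
    GoodLift (g.img D) (g.lift x) where
  lift u hu := by
    rw [g.mem_img] at hu
    rw [Aff.lift, map_add, red_lin9, h.lift _ hu, red_digit]
    exact g.act_inv_act u
  good b hb h9 h0 := by
    rw [g.sum_lift] at h0
    rw [g.sum_img] at h9
    rw [h9, nine_smul, add_zero] at h0
    have hb' : ∀ u ∈ D, b (g.act u) ≤ 8 := fun u hu => hb _ ((g.act_mem_img D u).mpr hu)
    exact h.good (fun u => b (g.act u)) hb' h9 (lin9_inj g.NM h0)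

/-- equivariance of `e(b)` -/
theorem ev_map (g : Aff r) {D : Finset (Fin r → ZMod 3)}
    {x : (Fin r → ZMod 3) → (Fin r → ZMod 9)} (hx : ∀ u ∈ D, red r (x u) = u)
    (b : (Fin r → ZMod 3) → ℕ) (h6 : ∑ u ∈ D, b (g.act u) = 6)
    (h0 : ∑ u ∈ D, b (g.act u) • u = 0) :
    ev (g.img D) (g.lift x) b = g.act (ev D x (fun u => b (g.act u))) := by
  have hs : red r (∑ u ∈ D, b (g.act u) • x u) = 0 := by
    rw [GoodLift.red_sum hx, h0]
  have ht : red r (6 • digit g.t) = 0 := by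
    rw [map_nsmul, red_digit]
    have := (div3 r).three (2 • g.t)
    rw [smul_smul] at this
    exact this
  have hl : red r (lin9 g.M *ᵥ (∑ u ∈ D, b (g.act u) • x u)) = 0 := by
    rw [red_lin9, hs, mulVec_zero]
  unfold ev
  rw [g.sum_lift, h6, (div3 r).add _ _ hl ht, third_lin9 _ hs, Aff.act, mulVec_neg, neg_add]
  congr 1
  have h6' : (6 : ℕ) • digit g.t = 3 • (2 • digit g.t) := by rw [smul_smul]; norm_num
  rw [h6', third_three, map_nsmul, red_digit]
  have h3 := (div3 r).three g.t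
  have : g.t + 2 • g.t = 0 := by
    rw [← h3, succ_nsmul' g.t 2]
  rw [neg_eq_iff_add_eq_zero, add_comm]
  exact this

/-- good lifts may be changed by affine maps with values in `3 (ZMod 9)^r` -/
theorem GoodLift.shift {D : Finset (Fin r → ZMod 3)}
    {x : (Fin r → ZMod 3) → (Fin r → ZMod 9)} (h : GoodLift D x)
    (A : Matrix (Fin r) (Fin r) (ZMod 3)) (c : Fin r → ZMod 3) :
    GoodLift D (fun u => x u + mul3 r (A *ᵥ u + c)) where
  lift u hu := by rw [map_add, h.lift u hu, red_mul3, add_zero]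
  good b hb h9 h0 := by
    have h1 : ∑ u ∈ D, b u • (x u + mul3 r (A *ᵥ u + c)) =
        ∑ u ∈ D, b u • x u + mul3 r (A *ᵥ (∑ u ∈ D, b u • u)) := by
      have h2 : ∑ u ∈ D, b u • mul3 r (A *ᵥ u + c) = mul3 r (A *ᵥ (∑ u ∈ D, b u • u)) := by
        have h3 : ∀ u ∈ D, b u • mul3 r (A *ᵥ u + c) = mul3 r (A *ᵥ (b u • u)) +
            b u • mul3 r c := by
          intro u _
          rw [mul3_add, smul_add, ← mul3_nsmul, Matrix.mulVec_smul]
        rw [Finset.sum_congr rfl h3, Finset.sum_add_distrib, ← Finset.sum_smul, h9, nine_smul,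
          add_zero, ← mul3_sum, Matrix.mulVec_sum]
      rw [← h2, ← Finset.sum_add_distrib]
      exact Finset.sum_congr rfl fun u _ => smul_add _ _ _
    rw [h1] at h0
    have h4 : ∑ u ∈ D, b u • u = 0 := by
      have h5 := congrArg (red r) h0
      rwa [map_add, red_mul3, add_zero, map_zero, GoodLift.red_sum h.lift] at h5
    rw [h4, mulVec_zero, mul3_zero, add_zero] at h0
    exact h.good b hb h9 h0

/-- the shift does not change the values `e(b)` -/
theorem ev_shift {D : Finset (Fin r → ZMod 3)}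
    {x : (Fin r → ZMod 3) → (Fin r → ZMod 9)}
    (A : Matrix (Fin r) (Fin r) (ZMod 3)) (c : Fin r → ZMod 3)
    (b : (Fin r → ZMod 3) → ℕ) (h6 : ∑ u ∈ D, b u = 6) (h0 : ∑ u ∈ D, b u • u = 0) :
    ev D (fun u => x u + mul3 r (A *ᵥ u + c)) b = ev D x b := by
  unfold ev
  congr 2
  have h1 : ∀ u ∈ D, b u • (x u + mul3 r (A *ᵥ u + c)) = b u • x u + (mul3 r (A *ᵥ (b u • u)) +
            b u • mul3 r c) := by
    intro u _
    rw [smul_add, mul3_add, smul_add, ← mul3_nsmul, Matrix.mulVec_smul]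
  rw [Finset.sum_congr rfl h1, Finset.sum_add_distrib, Finset.sum_add_distrib, ← Finset.sum_smul,
    h6, ← mul3_sum, ← Matrix.mulVec_sum, h0, mulVec_zero, mul3_zero, zero_add, ← mul3_nsmul]
  have h6' : (6 : ℕ) • c = 3 • (2 • c) := by rw [smul_smul]; norm_num
  rw [h6', (div3 r).three, mul3_zero, add_zero]

/-! ### the digits of a lift -/

/-- `x u = u~ + 3 f(u)` -/
def dg (x : (Fin r → ZMod 3) → (Fin r → ZMod 9)) (u : Fin r → ZMod 3) : Fin r → ZMod 3 :=
  third r (x u - digit u)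

lemma dg_spec {x : (Fin r → ZMod 3) → (Fin r → ZMod 9)} {u : Fin r → ZMod 3}
    (h : red r (x u) = u) : x u = digit u + mul3 r (dg x u) := by
  have h1 : red r (x u - digit u) = 0 := by rw [map_sub, h, red_digit, sub_self]
  rw [dg, mul3_third h1]
  abel

lemma dg_shift {x : (Fin r → ZMod 3) → (Fin r → ZMod 9)} {u : Fin r → ZMod 3}
    (h : red r (x u) = u) (v : (Fin r → ZMod 3) → Fin r → ZMod 3) :
    dg (fun u => x u + mul3 r (v u)) u = dg x u + v u := by
  have h1 : red r (x u - digit u) = 0 := by rw [map_sub, h, red_digit, sub_self]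
  have h2 : x u + mul3 r (v u) - digit u = (x u - digit u) + mul3 r (v u) := by abel
  rw [dg, h2, (div3 r).add _ _ h1 (red_mul3 _), third_mul3]
  rfl

/-- the constant of a relation -/
def kc (D : Finset (Fin r → ZMod 3)) (b : (Fin r → ZMod 3) → ℕ) : Fin r → ZMod 3 :=
  third r (∑ u ∈ D, b u • digit u)

/-- `e(b)` in terms of the digits -/
theorem ev_eq {D : Finset (Fin r → ZMod 3)} {x : (Fin r → ZMod 3) → (Fin r → ZMod 9)}
    (hx : ∀ u ∈ D, red r (x u) = u) {b : (Fin r → ZMod 3) → ℕ}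
    (h0 : ∑ u ∈ D, b u • u = 0) :
    ev D x b = -(kc D b + ∑ u ∈ D, b u • dg x u) := by
  unfold ev kc
  congr 1
  have h1 : ∑ u ∈ D, b u • x u = ∑ u ∈ D, b u • digit u + mul3 r (∑ u ∈ D, b u • dg x u) := by
    rw [mul3_sum, ← Finset.sum_add_distrib]
    refine Finset.sum_congr rfl fun u hu => ?_
    rw [mul3_nsmul, ← smul_add, ← dg_spec (hx u hu)]
  have h2 : red r (∑ u ∈ D, b u • digit u) = 0 := by
    rw [map_sum, ← h0]
    refine Finset.sum_congr rfl fun v _ => ?_
    rw [map_nsmul, red_digit]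
  rw [h1, (div3 r).add _ _ h2 (red_mul3 _), third_mul3]

/-- normalisation: given six points with a dual system of affine functions, the digits may be
assumed to vanish at these points -/
theorem GoodLift.normalise {D : Finset (Fin r → ZMod 3)}
    {x : (Fin r → ZMod 3) → (Fin r → ZMod 9)} (h : GoodLift D x) {m : ℕ}
    (p : Fin m → Fin r → ZMod 3) (hp : ∀ i, p i ∈ D) (a : Fin m → Fin r → ZMod 3)
    (c : Fin m → ZMod 3)
    (hdual : ∀ i j, dotProduct (a i) (p j) + c i = if i = j then 1 else 0) :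
    ∃ x' : (Fin r → ZMod 3) → (Fin r → ZMod 9), GoodLift D x' ∧ (∀ i, dg x' (p i) = 0) ∧
      ∀ b : (Fin r → ZMod 3) → ℕ, ∑ u ∈ D, b u = 6 → ∑ u ∈ D, b u • u = 0 →
        ev D x' b = ev D x b := by
  classical
  set A : Matrix (Fin r) (Fin r) (ZMod 3) :=
    Matrix.of (fun k l => -∑ i, dg x (p i) k * a i l) with hA
  set v : Fin r → ZMod 3 := -∑ i, c i • dg x (p i) with hv
  refine ⟨fun u => x u + mul3 r (A *ᵥ u + v), h.shift A v, ?_, fun b h6 h0 => ev_shift A v b h6 h0⟩
  intro j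
  rw [dg_shift (h.lift _ (hp j)) (fun u => A *ᵥ u + v)]
  have key : A *ᵥ (p j) + v = -dg x (p j) := by
    funext k
    have h1 : (A *ᵥ (p j)) k = -∑ i, dg x (p i) k * dotProduct (a i) (p j) := by
      simp only [mulVec, dotProduct, hA, Matrix.of_apply, neg_mul, Finset.sum_neg_distrib]
      congr 1
      simp only [Finset.sum_mul, Finset.mul_sum]
      rw [Finset.sum_comm]
      refine Finset.sum_congr rfl fun i _ => Finset.sum_congr rfl fun l _ => ?_
      ring
    have h2 : v k = -∑ i, dg x (p i) k * c i := by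
      simp only [hv, Pi.neg_apply, Finset.sum_apply, Pi.smul_apply, smul_eq_mul]
      congr 1
      exact Finset.sum_congr rfl fun i _ => mul_comm _ _
    rw [Pi.add_apply, h1, h2, ← neg_add, ← Finset.sum_add_distrib, Pi.neg_apply]
    congr 1
    rw [Finset.sum_eq_single j]
    · rw [← mul_add, hdual, if_pos rfl, mul_one]
    · intro i _ hi
      rw [← mul_add, hdual, if_neg hi, mul_zero]
    · intro hj
      exact absurd (Finset.mem_univ j) hj
  rw [key, add_neg_cancel]

/-! ### sections -/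

lemma sec_img (g : Aff 5) (D : Finset W5) (ξ : W5) (j : ZMod 3) :
    sec (g.img D) ξ j = sec D (g.M.transpose *ᵥ ξ) (j - dotProduct ξ g.t) := by
  unfold sec Aff.img
  rw [Finset.filter_map, Finset.card_map]
  congr 1
  ext u
  simp only [Finset.mem_filter, Function.comp, Function.Embedding.coeFn_mk, Aff.act]
  rw [dotProduct_add, Matrix.dotProduct_mulVec, ← Matrix.mulVec_transpose]
  constructor
  · rintro ⟨h1, h2⟩
    exact ⟨h1, by rw [← h2, add_sub_cancel_right]⟩
  · rintro ⟨h1, h2⟩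
    exact ⟨h1, by rw [h2, sub_add_cancel]⟩

end Pool.Agent.H29.EGZ
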