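import Mathlib
import Pool.Agent.H29.EGZ.Trans

/-!
# 45-caps of type (I): the layout of the nine solids
-/

set_option autoImplicit false

namespace Pool.Agent.H29.EGZ

open Finset Matrix

/-! ### affine maps with prescribed coordinates -/

lemma exists_extend (k : ℕ) {m : ℕ} (hk : m + k = 5) (v : Fin m → W5)
    (hv : LinearIndependent (ZMod 3) v) :
    ∃ w : Fin 5 → W5, LinearIndependent (ZMod 3) w ∧
      ∀ (i : ℕ) (h : i < m) (h5 : i < 5), w ⟨i, h5⟩ = v ⟨i, h⟩ := by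
  induction k generalizing m with
  | zero =>
    rw [add_zero] at hk
    subst hk
    exact ⟨v, hv, fun i h h5 => rfl⟩
  | succ k ih =>
    have hlt : m < Module.finrank (ZMod 3) W5 := by
      rw [Module.finrank_fin_fun]
      omega
    obtain ⟨x, hx⟩ := exists_linearIndependent_snoc_of_lt_finrank hv hlt
    obtain ⟨w, hw, hwv⟩ := ih (by omega) (Fin.snoc v x) hx
    refine ⟨w, hw, fun i h h5 => ?_⟩
    rw [hwv i (by omega) h5]
    have : (⟨i, by omega⟩ : Fin (m + 1)) = Fin.castSucc ⟨i, h⟩ := rfl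
    rw [this, Fin.snoc_castSucc]

/-- an affine map with prescribed first coordinates -/
lemma exists_aff {m : ℕ} (hm : m ≤ 5) (v : Fin m → W5) (hv : LinearIndependent (ZMod 3) v)
    (c : Fin 5 → ZMod 3) :
    ∃ g : Aff 5, ∀ (u : W5) (i : ℕ) (h : i < m) (h5 : i < 5),
      g.act u ⟨i, h5⟩ = dotProduct (v ⟨i, h⟩) u + c ⟨i, h5⟩ := by
  obtain ⟨w, hw, hwv⟩ := exists_extend (5 - m) (by omega) v hv
  have hU : IsUnit (Matrix.of w) := by
    rw [← Matrix.linearIndependent_rows_iff_isUnit]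
    exact hw
  have hdet : IsUnit (Matrix.of w).det := (Matrix.isUnit_iff_isUnit_det _).mp hU
  refine ⟨⟨Matrix.of w, (Matrix.of w)⁻¹, c, Matrix.mul_nonsing_inv _ hdet,
    Matrix.nonsing_inv_mul _ hdet⟩, fun u i h h5 => ?_⟩
  show (Matrix.of w *ᵥ u + c) ⟨i, h5⟩ = _
  rw [Pi.add_apply, ← hwv i h h5]
  rfl

/-! ### caps in planes -/

lemma plane_check : ∀ S ∈ (univ : Finset (ZMod 3 × ZMod 3)).powersetCard 5,
    ∃ a ∈ S, ∃ b ∈ S, ∃ c ∈ S, a ≠ b ∧ a ≠ c ∧ b ≠ c ∧ a + b + c = 0 := by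
  decide +kernel

lemma IsCap.ne_zero {D : Finset W5} (hD : IsCap D) {u v w : W5} (hu : u ∈ D) (hv : v ∈ D)
    (hw : w ∈ D) (huv : u ≠ v) (huw : u ≠ w) (hvw : v ≠ w) : u + v + w ≠ 0 := by
  intro h0
  refine hD {u, v, w} ?_ (Finset.card_eq_three.mpr ⟨u, v, w, huv, huw, hvw, rfl⟩) ?_
  · intro x hx
    simp only [Finset.mem_insert, Finset.mem_singleton] at hx
    rcases hx with rfl | rfl | rfl <;> assumption
  · rw [Finset.sum_insert (by simp [huv, huw]), Finset.sum_pair hvw, ← add_assoc, h0]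

lemma Aff.sum_three (g : Aff 5) (u v w : W5) :
    g.act u + g.act v + g.act w = g.M *ᵥ (u + v + w) := by
  show (g.M *ᵥ u + g.t) + (g.M *ᵥ v + g.t) + (g.M *ᵥ w + g.t) = _
  rw [mulVec_add, mulVec_add]
  have := three_smul_W5 g.t
  calc (g.M *ᵥ u + g.t) + (g.M *ᵥ v + g.t) + (g.M *ᵥ w + g.t)
      = g.M *ᵥ u + g.M *ᵥ v + g.M *ᵥ w + 3 • g.t := by abel
    _ = _ := by rw [this, add_zero]

lemma Aff.mulVec_eq_zero (g : Aff 5) {z : W5} (h : g.M *ᵥ z = 0) : z = 0 := by
  have : g.N *ᵥ (g.M *ᵥ z) = 0 := by rw [h, mulVec_zero]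
  rwa [mulVec_mulVec, g.NM, one_mulVec] at this

/-- a plane contains at most four points of a cap -/
theorem plane_le {D : Finset W5} (hD : IsCap D) (v : Fin 3 → W5)
    (hv : LinearIndependent (ZMod 3) v) (j : Fin 3 → ZMod 3) :
    (D.filter (fun u => ∀ i, dotProduct (v i) u = j i)).card ≤ 4 := by
  by_contra hlt
  push Not at hlt
  obtain ⟨F, hF, hF5⟩ := Finset.exists_subset_card_eq (Nat.succ_le_of_lt hlt)
  obtain ⟨g, hg⟩ := exists_aff (by norm_num) v hv 0
  have hco : ∀ u ∈ F, ∀ (i : ℕ) (h : i < 3) (h5 : i < 5), g.act u ⟨i, h5⟩ = j ⟨i, h⟩ := by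
    intro u hu i h h5
    rw [hg u i h h5, (Finset.mem_filter.mp (hF hu)).2]
    simp
  set φ : W5 → ZMod 3 × ZMod 3 := fun u => (g.act u 3, g.act u 4) with hφ
  have hinj : Set.InjOn φ F := by
    intro u hu v' hv' h
    apply g.act_injective
    rw [hφ, Prod.mk.injEq] at h
    have hu' : u ∈ F := hu
    have hv'' : v' ∈ F := hv'
    funext i
    fin_cases i
    · exact (hco u hu' 0 (by norm_num) (by norm_num)).trans
        (hco v' hv'' 0 (by norm_num) (by norm_num)).symm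
    · exact (hco u hu' 1 (by norm_num) (by norm_num)).trans
        (hco v' hv'' 1 (by norm_num) (by norm_num)).symm
    · exact (hco u hu' 2 (by norm_num) (by norm_num)).trans
        (hco v' hv'' 2 (by norm_num) (by norm_num)).symm
    · exact h.1
    · exact h.2
  have hcard : (F.image φ).card = 5 := by rw [Finset.card_image_of_injOn hinj, hF5]
  obtain ⟨a, ha, b, hb, c, hc, hab, hac, hbc, h0⟩ := plane_check (F.image φ)
    (Finset.mem_powersetCard.mpr ⟨Finset.subset_univ _, hcard⟩)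
  obtain ⟨u, hu, rfl⟩ := Finset.mem_image.mp ha
  obtain ⟨v', hv', rfl⟩ := Finset.mem_image.mp hb
  obtain ⟨w, hw, rfl⟩ := Finset.mem_image.mp hc
  refine hD.ne_zero (Finset.mem_filter.mp (hF hu)).1 (Finset.mem_filter.mp (hF hv')).1
    (Finset.mem_filter.mp (hF hw)).1 (fun h => hab (by rw [h])) (fun h => hac (by rw [h]))
    (fun h => hbc (by rw [h])) ?_
  apply g.mulVec_eq_zero
  rw [← g.sum_three]
  have h3 : ∀ a : ZMod 3, a + a + a = 0 := by decide
  rw [hφ] at h0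
  have h01 := congrArg Prod.fst h0
  have h02 := congrArg Prod.snd h0
  simp only [Prod.fst_add, Prod.snd_add, Prod.fst_zero, Prod.snd_zero] at h01 h02
  funext i
  rw [Pi.add_apply, Pi.add_apply, Pi.zero_apply]
  fin_cases i
  · show g.act u ⟨0, _⟩ + g.act v' ⟨0, _⟩ + g.act w ⟨0, _⟩ = 0
    rw [hco u hu 0 (by norm_num) (by norm_num), hco v' hv' 0 (by norm_num) (by norm_num),
      hco w hw 0 (by norm_num) (by norm_num), h3]
  · show g.act u ⟨1, _⟩ + g.act v' ⟨1, _⟩ + g.act w ⟨1, _⟩ = 0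
    rw [hco u hu 1 (by norm_num) (by norm_num), hco v' hv' 1 (by norm_num) (by norm_num),
      hco w hw 1 (by norm_num) (by norm_num), h3]
  · show g.act u ⟨2, _⟩ + g.act v' ⟨2, _⟩ + g.act w ⟨2, _⟩ = 0
    rw [hco u hu 2 (by norm_num) (by norm_num), hco v' hv' 2 (by norm_num) (by norm_num),
      hco w hw 2 (by norm_num) (by norm_num), h3]
  · exact h01
  · exact h02

/-! ### the cubic identity for a section -/

/-- product of the deviations from 6 -/
def p6 (a b c : ℤ) : ℤ := (a - 6) * (b - 6) * (c - 6)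

lemma sum_p6 {A : Finset W5} (hA : IsCap A) (h18 : A.card = 18) :
    ∑ ζ : W5, p6 (sec A ζ 0) (sec A ζ 1) (sec A ζ 2) = 324 := by
  have h1 := sum_sec_cube A hA
  rw [h18] at h1
  have h2 : ∀ ξ : W5, ((∑ j : ZMod 3, ∑ k : ZMod 3,
      sec A ξ j * (sec A ξ k * sec A ξ (-(j + k))) : ℕ) : ℤ) =
      1944 + 9 * p6 (sec A ξ 0) (sec A ξ 1) (sec A ξ 2) := by
    intro ξ
    have h3 : ((sec A ξ 0 + sec A ξ 1 + sec A ξ 2 : ℕ) : ℤ) = 18 := by
      rw [sec_total A ξ, h18]; norm_num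
    simp only [sum_univ_three]
    rw [show (-(0 + 0) : ZMod 3) = 0 by decide, show (-(0 + 1) : ZMod 3) = 2 by decide,
      show (-(0 + 2) : ZMod 3) = 1 by decide, show (-(1 + 0) : ZMod 3) = 2 by decide,
      show (-(1 + 1) : ZMod 3) = 1 by decide, show (-(1 + 2) : ZMod 3) = 0 by decide,
      show (-(2 + 0) : ZMod 3) = 1 by decide, show (-(2 + 1) : ZMod 3) = 0 by decide,
      show (-(2 + 2) : ZMod 3) = 2 by decide]
    push_cast at h3 ⊢
    unfold p6
    generalize (sec A ξ 0 : ℤ) = a at h3 ⊢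
    generalize (sec A ξ 1 : ℤ) = b at h3 ⊢
    generalize (sec A ξ 2 : ℤ) = c at h3 ⊢
    have hc : c = 18 - a - b := by linarith
    subst hc
    ring
  have h4 : ((∑ ξ : W5, ∑ j : ZMod 3, ∑ k : ZMod 3,
      sec A ξ j * (sec A ξ k * sec A ξ (-(j + k))) : ℕ) : ℤ) =
      ∑ ξ : W5, (1944 + 9 * p6 (sec A ξ 0) (sec A ξ 1) (sec A ξ 2)) := by
    rw [Nat.cast_sum]
    exact Finset.sum_congr rfl fun ξ _ => h2 ξ
  rw [h1, Finset.sum_add_distrib, Finset.sum_const, Finset.card_univ, card_W5,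
    ← Finset.mul_sum] at h4
  norm_num at h4
  linarith

/-! ### types -/

/-- the section sizes of type `t` : `t = 3` means `(15,15,15)`, otherwise 9 at `t` -/
def tp (t : Fin 4) (j : ZMod 3) : ℕ := if t = 3 then 15 else if (j.val = t.val) then 9 else 18

lemma exists_tp {D : Finset W5} {ξ : W5} (h : Ty (sec D ξ 0) (sec D ξ 1) (sec D ξ 2)) :
    ∃ t : Fin 4, ∀ j, sec D ξ j = tp t j := by
  rcases h with ⟨a, b, c⟩ | ⟨a, b, c⟩ | ⟨a, b, c⟩ | ⟨a, b, c⟩
  · refine ⟨3, fun j => ?_⟩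
    rcases zmod3_cases j with rfl | rfl | rfl
    · rw [a]; rfl
    · rw [b]; rfl
    · rw [c]; rfl
  · refine ⟨0, fun j => ?_⟩
    rcases zmod3_cases j with rfl | rfl | rfl
    · rw [a]; rfl
    · rw [b]; rfl
    · rw [c]; rfl
  · refine ⟨1, fun j => ?_⟩
    rcases zmod3_cases j with rfl | rfl | rfl
    · rw [a]; rfl
    · rw [b]; rfl
    · rw [c]; rfl
  · refine ⟨2, fun j => ?_⟩
    rcases zmod3_cases j with rfl | rfl | rfl
    · rw [a]; rfl
    · rw [b]; rfl
    · rw [c]; rfl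

/-- cell sizes in an 18-section, from the types of the three other directions -/
def cl (i : ZMod 3) (t1 t2 t3 : Fin 4) (j : ZMod 3) : ℤ :=
  ((tp t1 j : ℤ) + (tp t2 (i + j) : ℤ) + (tp t3 (i - j) : ℤ) - 27) / 3

lemma cl_check : ∀ (i : ZMod 3) (t1 t2 t3 : Fin 4),
    ((t1 = 3 ∧ t2 ≠ 3 ∧ t3 ≠ 3) ∨ (t1 ≠ 3 ∧ t2 = 3 ∧ t3 ≠ 3) ∨ (t1 ≠ 3 ∧ t2 ≠ 3 ∧ t3 = 3)) ∨
    (-54 ≤ p6 (cl i t1 t2 t3 0) (cl i t1 t2 t3 1) (cl i t1 t2 t3 2) ∧
    (-2 ≤ p6 (cl i t1 t2 t3 0) (cl i t1 t2 t3 1) (cl i t1 t2 t3 2) ∨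
      ∃ j, cl i t1 t2 t3 j = 0)) := by
  decide +kernel

/-- if all cells have at most eight points, the product is at least -2 (except for `k = 3`) -/
lemma cl_check2 : ∀ (i : ZMod 3) (t1 t2 t3 : Fin 4),
    ((t1 = 3 ∧ t2 ≠ 3 ∧ t3 ≠ 3) ∨ (t1 ≠ 3 ∧ t2 = 3 ∧ t3 ≠ 3) ∨ (t1 ≠ 3 ∧ t2 ≠ 3 ∧ t3 = 3)) ∨
    (∃ j, 9 ≤ cl i t1 t2 t3 j) ∨
    -2 ≤ p6 (cl i t1 t2 t3 0) (cl i t1 t2 t3 1) (cl i t1 t2 t3 2) := by
  decide +kernel

/-! ### linear independence -/

lemma li_pair {ξ ζ : W5} (hξ : ξ ≠ 0) (h : ∀ c : ZMod 3, c • ξ ≠ ζ) :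
    LinearIndependent (ZMod 3) ![ξ, ζ] := by
  rw [LinearIndependent.pair_iff]
  intro s t hst
  by_cases ht : t = 0
  · subst ht
    rw [zero_smul, add_zero] at hst
    exact ⟨(smul_eq_zero.mp hst).resolve_right hξ, rfl⟩
  · exfalso
    apply h (-(t⁻¹ * s))
    have h1 : t • ζ = -(s • ξ) := by rw [eq_neg_iff_add_eq_zero, add_comm]; exact hst
    have h2 : ζ = t⁻¹ • (t • ζ) := by rw [smul_smul, inv_mul_cancel₀ ht, one_smul]
    rw [h2, h1, smul_neg, smul_smul, neg_smul]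

lemma li_triple {ξ η ζ : W5} (hli : LinearIndependent (ZMod 3) ![ξ, η])
    (h : ∀ c d : ZMod 3, c • ξ + d • η ≠ ζ) :
    LinearIndependent (ZMod 3) ![ξ, η, ζ] := by
  rw [Fintype.linearIndependent_iff]
  intro g hg
  rw [Fin.sum_univ_three] at hg
  simp only [Matrix.cons_val_zero, Matrix.cons_val_one, Matrix.cons_val] at hg
  by_cases h2 : g 2 = 0
  · rw [h2, zero_smul, add_zero] at hg
    have h3 := LinearIndependent.pair_iff.mp hli (g 0) (g 1) hg
    intro i
    fin_cases i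
    · exact h3.1
    · exact h3.2
    · exact h2
  · exfalso
    apply h (-((g 2)⁻¹ * g 0)) (-((g 2)⁻¹ * g 1))
    have h1 : g 2 • ζ = -(g 0 • ξ + g 1 • η) := by
      rw [eq_neg_iff_add_eq_zero, add_comm]; exact hg
    have h4 : ζ = (g 2)⁻¹ • (g 2 • ζ) := by rw [smul_smul, inv_mul_cancel₀ h2, one_smul]
    rw [h4, h1, smul_neg, smul_add, smul_smul, smul_smul, neg_smul, neg_smul, neg_add]

/-! ### a line with exactly three special directions -/

lemma sec_neg (D : Finset W5) (ξ : W5) (j : ZMod 3) : sec D (-ξ) j = sec D ξ (-j) := by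
  unfold sec
  congr 1
  ext u
  simp only [Finset.mem_filter, neg_dotProduct]
  constructor
  · rintro ⟨h1, h2⟩; exact ⟨h1, by rw [← h2, neg_neg]⟩
  · rintro ⟨h1, h2⟩; exact ⟨h1, by rw [h2, neg_neg]⟩

lemma sec_smul_aux (D : Finset W5) (ξ : W5) (i c : ZMod 3) (h18 : sec D ξ i = 18) :
    p6 (sec (D.filter (fun u => dotProduct ξ u = i)) (c • ξ) 0)
      (sec (D.filter (fun u => dotProduct ξ u = i)) (c • ξ) 1)
      (sec (D.filter (fun u => dotProduct ξ u = i)) (c • ξ) 2) = 432 := by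
  have h1 : ∀ j : ZMod 3, sec (D.filter (fun u => dotProduct ξ u = i)) (c • ξ) j =
      if c * i = j then 18 else 0 := by
    intro j
    unfold sec
    rw [Finset.filter_filter]
    split_ifs with h
    · rw [← h18]
      unfold sec
      congr 1
      ext u
      simp only [Finset.mem_filter, smul_dotProduct, smul_eq_mul]
      constructor
      · rintro ⟨h1, h2, _⟩; exact ⟨h1, h2⟩
      · rintro ⟨h1, h2⟩; exact ⟨h1, h2, by rw [h2, h]⟩
    · rw [Finset.card_eq_zero, Finset.filter_eq_empty_iff]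
      rintro u _ ⟨h2, h3⟩
      rw [smul_dotProduct, smul_eq_mul, h2] at h3
      exact h h3
  rw [h1, h1, h1]
  have : ∀ s : ZMod 3, p6 ((if s = 0 then 18 else 0 : ℕ) : ℤ) ((if s = 1 then 18 else 0 : ℕ) : ℤ)
      ((if s = 2 then 18 else 0 : ℕ) : ℤ) = 432 := by decide
  exact this _

lemma sum_lower (F : W5 → ℤ) (L1 L2 : Finset W5) (h12 : L1 ⊆ L2) (h1 : L1.card = 3)
    (h2 : L2.card ≤ 9) (a : ∀ ζ ∈ L1, F ζ = 432) (b : ∀ ζ ∈ L2 \ L1, -54 ≤ F ζ)
    (c : ∀ ζ ∉ L2, -2 ≤ F ζ) : 504 ≤ ∑ ζ : W5, F ζ := by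
  have e1 : ∑ ζ : W5, F ζ = ∑ ζ ∈ L2, F ζ + ∑ ζ ∈ L2ᶜ, F ζ := (Finset.sum_add_sum_compl L2 F).symm
  have e2 : ∑ ζ ∈ L2, F ζ = ∑ ζ ∈ L2 \ L1, F ζ + ∑ ζ ∈ L1, F ζ := (Finset.sum_sdiff h12).symm
  have e3 : ∑ ζ ∈ L1, F ζ = 3 * 432 := by
    rw [Finset.sum_congr rfl a, Finset.sum_const, h1]; norm_num
  have e4 : -54 * ((L2 \ L1).card : ℤ) ≤ ∑ ζ ∈ L2 \ L1, F ζ := by
    have := Finset.card_nsmul_le_sum (L2 \ L1) F (-54) b
    rw [nsmul_eq_mul] at this
    linarith
  have e5 : -2 * ((L2ᶜ).card : ℤ) ≤ ∑ ζ ∈ L2ᶜ, F ζ := by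
    have := Finset.card_nsmul_le_sum (L2ᶜ) F (-2) (fun ζ hζ => c ζ (Finset.mem_compl.mp hζ))
    rw [nsmul_eq_mul] at this
    linarith
  have e6 : ((L2 \ L1).card : ℤ) = L2.card - 3 := by
    rw [Finset.card_sdiff_of_subset h12, h1]
    have : 3 ≤ L2.card := h1 ▸ Finset.card_le_card h12
    omega
  have e7 : ((L2ᶜ).card : ℤ) = 243 - L2.card := by
    rw [Finset.card_compl, card_W5]
    have : L2.card ≤ 243 := by rw [← card_W5]; exact Finset.card_le_univ _
    omega
  rw [e6] at e4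
  rw [e7] at e5
  rw [e1, e2, e3]
  have : (L2.card : ℤ) ≤ 9 := by exact_mod_cast h2
  linarith

lemma add_sub_aux (ξ ζ : W5) : ξ + ζ + (ξ - ζ) = -ξ := by
  have : ∀ a b : ZMod 3, a + b + (a - b) = -a := by decide
  funext i
  exact this _ _

lemma sub_sub_aux (ξ ζ : W5) : ξ + ζ - (ξ - ζ) = -ζ := by
  have : ∀ a b : ZMod 3, a + b - (a - b) = -b := by decide
  funext i
  exact this _ _

/-- some line of functionals contains exactly three special directions -/
theorem exists_three {D : Finset W5} (hD : IsCap D) (h45 : D.card = 45)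
    (hT : ∀ ξ : W5, ξ ≠ 0 → Ty (sec D ξ 0) (sec D ξ 1) (sec D ξ 2)) :
    ∃ ξ η : W5, LinearIndependent (ZMod 3) ![ξ, η] ∧ sec D ξ 0 ≠ 15 ∧ sec D η 0 ≠ 15 ∧
      sec D (ξ + η) 0 ≠ 15 ∧ sec D (ξ - η) 0 = 15 := by
  classical
  obtain ⟨ξ, hξ⟩ : ((univ : Finset W5).filter (fun ξ => ξ ≠ 0 ∧ sec D ξ 0 ≠ 15)).Nonempty := by
    rw [← Finset.card_pos, card_special hT h45]
    norm_num
  simp only [Finset.mem_filter, Finset.mem_univ, true_and] at hξ
  obtain ⟨hξ0, hξs⟩ := hξ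
  obtain ⟨i, hi⟩ : ∃ i, sec D ξ i = 18 := by
    rcases hT ξ hξ0 with h | h | h | h
    · exact absurd h.1 hξs
    · exact ⟨1, h.2.1⟩
    · exact ⟨0, h.1⟩
    · exact ⟨0, h.1⟩
  set A := D.filter (fun u => dotProduct ξ u = i) with hA
  have hA18 : A.card = 18 := hi
  have hAcap : IsCap A := hD.subset (Finset.filter_subset _ _)
  by_contra hno
  push Not at hno
  set L1 : Finset W5 := (univ : Finset (ZMod 3)).image (fun c => c • ξ) with hL1
  have hL1card : L1.card = 3 := by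
    rw [hL1, Finset.card_image_of_injective _ (smul_left_injective _ hξ0), Finset.card_univ,
      ZMod.card]
  have hnot1 : ∀ ζ, ζ ∉ L1 → ∀ c : ZMod 3, c • ξ ≠ ζ := by
    intro ζ hζ c hc
    exact hζ (Finset.mem_image.mpr ⟨c, Finset.mem_univ _, hc⟩)
  -- the types for `ζ ∉ L1`
  have htypes : ∀ ζ, ζ ∉ L1 → ∃ t1 t2 t3 : Fin 4,
      ¬ ((t1 = 3 ∧ t2 ≠ 3 ∧ t3 ≠ 3) ∨ (t1 ≠ 3 ∧ t2 = 3 ∧ t3 ≠ 3) ∨ (t1 ≠ 3 ∧ t2 ≠ 3 ∧ t3 = 3)) ∧
      ∀ j, (sec A ζ j : ℤ) = cl i t1 t2 t3 j := by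
    intro ζ hζ
    have hc := hnot1 ζ hζ
    have hζ0 : ζ ≠ 0 := fun h => hc 0 (by rw [zero_smul, h])
    have hp0 : ξ + ζ ≠ 0 := fun h => hc (-1) (by rw [neg_smul, one_smul, neg_eq_iff_add_eq_zero, h])
    have hm0 : ξ - ζ ≠ 0 := fun h => hc 1 (by rw [one_smul]; exact sub_eq_zero.mp h)
    obtain ⟨t1, ht1⟩ := exists_tp (hT ζ hζ0)
    obtain ⟨t2, ht2⟩ := exists_tp (hT (ξ + ζ) hp0)
    obtain ⟨t3, ht3⟩ := exists_tp (hT (ξ - ζ) hm0)
    have hsp : ∀ t : Fin 4, tp t 0 = 15 ↔ t = 3 := by decide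
    refine ⟨t1, t2, t3, ?_, ?_⟩
    · have h1 : sec D ζ 0 = 15 ↔ t1 = 3 := by rw [ht1]; exact hsp t1
      have h2 : sec D (ξ + ζ) 0 = 15 ↔ t2 = 3 := by rw [ht2]; exact hsp t2
      have h3 : sec D (ξ - ζ) 0 = 15 ↔ t3 = 3 := by rw [ht3]; exact hsp t3
      have hli := li_pair hξ0 hc
      have hns : ∀ z : W5, sec D (-z) 0 = sec D z 0 := fun z => by rw [sec_neg, neg_zero]
      rintro (⟨a, b, c⟩ | ⟨a, b, c⟩ | ⟨a, b, c⟩)
      · refine hno (ξ + ζ) (ξ - ζ) ?_ (h2.not.mpr b) (h3.not.mpr c) ?_ ?_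
        · rw [LinearIndependent.pair_iff] at hli ⊢
          intro s t hst
          have h4 := hli (s + t) (s - t) (by
            rw [add_smul, sub_smul, ← hst, smul_add, smul_sub]; abel)
          have : ∀ s t : ZMod 3, s + t = 0 ∧ s - t = 0 → s = 0 ∧ t = 0 := by decide
          exact this s t h4
        · rw [add_sub_aux, hns]
          exact hξs
        · rw [sub_sub_aux, hns]
          exact h1.mpr a
      · refine hno ξ (-ζ) ?_ hξs ?_ ?_ ?_
        · rw [LinearIndependent.pair_iff] at hli ⊢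
          intro s t hst
          have h4 := hli s (-t) (by rw [neg_smul, ← smul_neg]; exact hst)
          exact ⟨h4.1, neg_eq_zero.mp h4.2⟩
        · rw [hns]; exact h1.not.mpr a
        · rw [← sub_eq_add_neg]; exact h3.not.mpr c
        · rw [sub_neg_eq_add]; exact h2.mpr b
      · exact hno ξ ζ hli hξs (h1.not.mpr a) (h2.not.mpr b) (h3.mpr c)
    · intro j
      have h4 := solid_card D ξ ζ i j
      have h5 : (D.filter (fun u => dotProduct ξ u = i ∧ dotProduct ζ u = j)).card =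
          sec A ζ j := by
        rw [hA]
        unfold sec
        rw [Finset.filter_filter]
      rw [h5, h45, hi, ht1, ht2, ht3] at h4
      unfold cl
      omega
  -- conclusion
  have hfin : ∀ L2 : Finset W5, L1 ⊆ L2 → L2.card ≤ 9 →
      (∀ ζ, ζ ∉ L2 → -2 ≤ p6 (sec A ζ 0) (sec A ζ 1) (sec A ζ 2)) → False := by
    intro L2 h12 h9 hoff
    have h1 := sum_lower (fun ζ => p6 (sec A ζ 0) (sec A ζ 1) (sec A ζ 2)) L1 L2 h12 hL1card h9
      ?_ ?_ hoff
    · rw [sum_p6 hAcap hA18] at h1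
      norm_num at h1
    · intro ζ hζ
      obtain ⟨c, -, rfl⟩ := Finset.mem_image.mp hζ
      exact sec_smul_aux D ξ i c hi
    · intro ζ hζ
      obtain ⟨t1, t2, t3, hno3, hcl⟩ := htypes ζ (Finset.mem_sdiff.mp hζ).2
      show -54 ≤ p6 (sec A ζ 0) (sec A ζ 1) (sec A ζ 2)
      rw [hcl, hcl, hcl]
      rcases cl_check i t1 t2 t3 with h | h
      · exact absurd h hno3
      · exact h.1
  by_cases hB : ∃ ζ0, ζ0 ∉ L1 ∧ ∃ j0, sec A ζ0 j0 = 0
  · obtain ⟨ζ0, hζ0, j0, hj0⟩ := hB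
    have hli := li_pair hξ0 (hnot1 ζ0 hζ0)
    refine hfin ((univ : Finset (ZMod 3 × ZMod 3)).image (fun c => c.1 • ξ + c.2 • ζ0)) ?_ ?_ ?_
    · intro ζ hζ
      obtain ⟨c, -, rfl⟩ := Finset.mem_image.mp hζ
      exact Finset.mem_image.mpr ⟨(c, 0), Finset.mem_univ _, by simp⟩
    · refine Finset.card_image_le.trans ?_
      rw [Finset.card_univ]
      simp [ZMod.card]
    · intro ζ hζ
      have hcd : ∀ c d : ZMod 3, c • ξ + d • ζ0 ≠ ζ := by
        intro c d h
        exact hζ (Finset.mem_image.mpr ⟨(c, d), Finset.mem_univ _, h⟩)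
      have hζ1 : ζ ∉ L1 := by
        intro h
        obtain ⟨c, -, hc⟩ := Finset.mem_image.mp h
        exact hcd c 0 (by rw [zero_smul, add_zero]; exact hc)
      obtain ⟨t1, t2, t3, hno3, hcl⟩ := htypes ζ hζ1
      have hli3 := li_triple hli hcd
      have hle : ∀ j, sec A ζ j ≤ 8 := by
        intro j
        have h1 : sec A ζ j = ∑ l : ZMod 3, ((A.filter (fun u => dotProduct ζ u = j)).filter
            (fun u => dotProduct ζ0 u = l)).card := by
          unfold sec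
          exact Finset.card_eq_sum_card_fiberwise (fun _ _ => by simp)
        have h2 : ∀ l : ZMod 3, ((A.filter (fun u => dotProduct ζ u = j)).filter
            (fun u => dotProduct ζ0 u = l)).card ≤ if l = j0 then 0 else 4 := by
          intro l
          split_ifs with hl
          · rw [Nat.le_zero, Finset.card_eq_zero, Finset.filter_eq_empty_iff]
            intro u hu hu0
            have h3 : u ∈ A.filter (fun u => dotProduct ζ0 u = j0) := by
              rw [Finset.mem_filter] at hu ⊢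
              exact ⟨hu.1, by rw [hu0, hl]⟩
            unfold sec at hj0
            rw [Finset.card_eq_zero] at hj0
            rw [hj0] at h3
            exact absurd h3 (Finset.notMem_empty _)
          · refine le_trans (Finset.card_le_card ?_) (plane_le hD ![ξ, ζ0, ζ] hli3 ![i, l, j])
            intro u hu
            rw [Finset.mem_filter, Finset.mem_filter, hA, Finset.mem_filter] at hu
            rw [Finset.mem_filter]
            refine ⟨hu.1.1.1, fun k => ?_⟩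
            fin_cases k
            · exact hu.1.1.2
            · exact hu.2
            · exact hu.1.2
        rw [h1]
        refine (Finset.sum_le_sum fun l _ => h2 l).trans ?_
        rw [sum_univ_three]
        rcases zmod3_cases j0 with h | h | h <;> rw [h] <;> simp +decide
      rw [hcl, hcl, hcl]
      rcases cl_check2 i t1 t2 t3 with h | h | h
      · exact absurd h hno3
      · obtain ⟨j, hj⟩ := h
        rw [← hcl j] at hj
        have := hle j
        omega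
      · exact h
  · push Not at hB
    refine hfin L1 (Finset.Subset.refl _) (by rw [hL1card]; norm_num) ?_
    intro ζ hζ
    obtain ⟨t1, t2, t3, hno3, hcl⟩ := htypes ζ hζ
    rw [hcl, hcl, hcl]
    rcases cl_check i t1 t2 t3 with h | h
    · exact absurd h hno3
    · rcases h.2 with h2 | ⟨j, hj⟩
      · exact h2
      · rw [← hcl j] at hj
        exact absurd (by exact_mod_cast hj) (hB ζ hζ j)

/-! ### the layout -/

/-- the cell `(i, j)` -/
def cell (D : Finset W5) (i j : ZMod 3) : Finset W5 := D.filter (fun u => u 0 = i ∧ u 1 = j)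

/-- number of the three small levels `i = 2`, `j = 2`, `i + j = 2` through the cell `(i, j)` -/
def small (i j : ZMod 3) : ℕ :=
  (if i = 2 then 1 else 0) + (if j = 2 then 1 else 0) + (if i + j = 2 then 1 else 0)

/-- type of the image -/
lemma types_img (g : Aff 5) {D : Finset W5}
    (hT : ∀ ξ : W5, ξ ≠ 0 → Ty (sec D ξ 0) (sec D ξ 1) (sec D ξ 2)) :
    ∀ ξ : W5, ξ ≠ 0 → Ty (sec (g.img D) ξ 0) (sec (g.img D) ξ 1) (sec (g.img D) ξ 2) := by
  intro ξ hξ
  have hne : g.M.transpose *ᵥ ξ ≠ 0 := by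
    intro h
    apply hξ
    have h1 : g.N.transpose *ᵥ (g.M.transpose *ᵥ ξ) = 0 := by rw [h, mulVec_zero]
    rwa [mulVec_mulVec, ← Matrix.transpose_mul, g.MN, Matrix.transpose_one, one_mulVec] at h1
  have h := hT _ hne
  rw [sec_img, sec_img, sec_img]
  generalize dotProduct ξ g.t = s
  generalize g.M.transpose *ᵥ ξ = ζ at h
  rcases zmod3_cases s with rfl | rfl | rfl
  · simpa using h
  · rw [show (0 - 1 : ZMod 3) = 2 by decide, show (1 - 1 : ZMod 3) = 0 by decide,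
      show (2 - 1 : ZMod 3) = 1 by decide]
    unfold Ty at h ⊢
    omega
  · rw [show (0 - 2 : ZMod 3) = 1 by decide, show (1 - 2 : ZMod 3) = 2 by decide,
      show (2 - 2 : ZMod 3) = 0 by decide]
    unfold Ty at h ⊢
    omega

/-- signs and shifts which bring the small levels to the standard position -/
def Choice (t1 t2 t3 : Fin 4) (e a b : ZMod 3) : Prop :=
  e * e = 1 ∧ ∀ i j : ZMod 3,
    tp t1 (e * (i - a)) + tp t2 (e * (j - b)) + tp t3 (e * (i - a) + e * (j - b)) + 15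
      + 9 * small i j = 69

instance (t1 t2 t3 : Fin 4) (e a b : ZMod 3) : Decidable (Choice t1 t2 t3 e a b) := by
  unfold Choice; infer_instance

/-- the three small levels meet -/
def Meet (t1 t2 t3 : Fin 4) : Prop :=
  ∃ i j : ZMod 3, tp t1 i + tp t2 j + tp t3 (i + j) + 15 < 45

instance (t1 t2 t3 : Fin 4) : Decidable (Meet t1 t2 t3) := by
  unfold Meet; infer_instance

lemma choice_check : ∀ t1 t2 t3 : Fin 4, t1 ≠ 3 → t2 ≠ 3 → t3 ≠ 3 →
    Meet t1 t2 t3 ∨ ∃ e a b : ZMod 3, Choice t1 t2 t3 e a b := by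
  decide +kernel

/-- the nine cells of a cap of type (I) in suitable coordinates -/
theorem exists_layout {D : Finset W5} (hD : IsCap D) (h45 : D.card = 45)
    (hT : ∀ ξ : W5, ξ ≠ 0 → Ty (sec D ξ 0) (sec D ξ 1) (sec D ξ 2)) :
    ∃ g : Aff 5, ∀ i j : ZMod 3, (cell (g.img D) i j).card + 3 * small i j = 8 := by
  obtain ⟨ξ, η, hli, h1, h2, h3, h4⟩ := exists_three hD h45 hT
  have hpair := LinearIndependent.pair_iff.mp hli
  have hξ0 : ξ ≠ 0 := by
    intro h
    have := hpair 1 0 (by rw [h, smul_zero, zero_smul, add_zero])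
    exact absurd this.1 (by decide)
  have hη0 : η ≠ 0 := by
    intro h
    have := hpair 0 1 (by rw [h, smul_zero, zero_smul, add_zero])
    exact absurd this.2 (by decide)
  have hp0 : ξ + η ≠ 0 := by
    intro h
    have := hpair 1 1 (by rw [one_smul, one_smul, h])
    exact absurd this.2 (by decide)
  have hm0 : ξ - η ≠ 0 := by
    intro h
    have := hpair 1 (-1) (by rw [one_smul, neg_smul, one_smul, ← sub_eq_add_neg, h])
    exact absurd this.2 (by decide)
  obtain ⟨t1, ht1⟩ := exists_tp (hT ξ hξ0)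
  obtain ⟨t2, ht2⟩ := exists_tp (hT η hη0)
  obtain ⟨t3, ht3⟩ := exists_tp (hT (ξ + η) hp0)
  obtain ⟨t4, ht4⟩ := exists_tp (hT (ξ - η) hm0)
  have hsp : ∀ t : Fin 4, tp t 0 = 15 ↔ t = 3 := by decide
  rw [ht1, ne_eq, hsp] at h1
  rw [ht2, ne_eq, hsp] at h2
  rw [ht3, ne_eq, hsp] at h3
  rw [ht4, hsp] at h4
  -- the cells of `D`
  have hcell : ∀ i j : ZMod 3,
      3 * (D.filter (fun u => dotProduct ξ u = i ∧ dotProduct η u = j)).card + 45 =
      tp t1 i + tp t2 j + tp t3 (i + j) + 15 := by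
    intro i j
    have h5 := solid_card D ξ η i j
    rw [h45, ht1, ht2, ht3, ht4, h4] at h5
    rw [h5]
    have : ∀ s : ZMod 3, tp 3 s = 15 := by decide
    rw [this]
  -- a combinatorial choice of signs and shifts
  rcases choice_check t1 t2 t3 h1 h2 h3 with ⟨i, j, hij⟩ | ⟨e, a, b, he, hab⟩
  · have := hcell i j
    omega
  have he0 : e ≠ 0 := by
    rintro rfl
    revert he
    decide
  have hli' : LinearIndependent (ZMod 3) ![e • ξ, e • η] := by
    rw [LinearIndependent.pair_iff]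
    intro s t hst
    have h5 := hpair (s * e) (t * e) (by rw [mul_smul, mul_smul]; exact hst)
    exact ⟨(mul_eq_zero.mp h5.1).resolve_right he0, (mul_eq_zero.mp h5.2).resolve_right he0⟩
  obtain ⟨g, hg⟩ := exists_aff (by norm_num) ![e • ξ, e • η] hli' ![a, b, 0, 0, 0]
  have hg0 : ∀ u, g.act u 0 = e * dotProduct ξ u + a := by
    intro u
    have h5 := hg u 0 (by norm_num) (by norm_num)
    simpa [smul_dotProduct] using h5
  have hg1 : ∀ u, g.act u 1 = e * dotProduct η u + b := by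
    intro u
    have h5 := hg u 1 (by norm_num) (by norm_num)
    simpa [smul_dotProduct] using h5
  refine ⟨g, fun i j => ?_⟩
  have h6 : (cell (g.img D) i j).card = (D.filter (fun u => dotProduct ξ u = e * (i - a) ∧
      dotProduct η u = e * (j - b))).card := by
    unfold cell Aff.img
    rw [Finset.filter_map, Finset.card_map]
    congr 1
    ext u
    simp only [Finset.mem_filter, Function.comp, Function.Embedding.coeFn_mk, hg0, hg1]
    have key : ∀ x y : ZMod 3, (e * x + y = i ↔ x = e * (i - y)) := by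
      intro x y
      constructor
      · rintro rfl
        rw [add_sub_cancel_right, ← mul_assoc, he, one_mul]
      · rintro rfl
        rw [← mul_assoc, he, one_mul, sub_add_cancel]
    have key' : ∀ x y : ZMod 3, (e * x + y = j ↔ x = e * (j - y)) := by
      intro x y
      constructor
      · rintro rfl
        rw [add_sub_cancel_right, ← mul_assoc, he, one_mul]
      · rintro rfl
        rw [← mul_assoc, he, one_mul, sub_add_cancel]
    rw [key, key']
  have h7 := hcell (e * (i - a)) (e * (j - b))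
  have h8 := hab i j
  rw [h6]
  omega

end Pool.Agent.H29.EGZ
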